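import Mathlib

/-!
Abstract assembly of an extension with kernel a power of an alternating group.
-/

set_option autoImplicit false

universe u

namespace MP7fA

open Equiv

theorem assembly {F Ω : Type u} [Field F] [Field Ω] [Algebra F Ω] [IsGalois F Ω]
    {G : Type u} [Group G] {n k : ℕ}
    (π : (Ω ≃ₐ[F] Ω) →* G) (hπ : Function.Surjective π) (Lπ : IntermediateField F Ω)
    [FiniteDimensional F Lπ] (hker : π.ker = Lπ.fixingSubgroup)
    (act : G →* Perm (Fin k)) (ε : G → Fin k → ℤˣ) (y : Fin k → Fin n → Ω)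
    (hinj : ∀ j, Function.Injective (y j))
    (hperm : ∀ (γ : Ω ≃ₐ[F] Ω) (j : Fin k), ∃ p : Perm (Fin n),
      (∀ i, γ (y j i) = y (act (π γ) j) (p i)) ∧ Perm.sign p = ε (π γ) j)
    (hmove : ∀ (j₀ : Fin k) (σ : Perm (Fin n)), Perm.sign σ = 1 → ∃ τ : Ω ≃ₐ[F] Ω, π τ = 1 ∧
      (∀ j, j ≠ j₀ → ∀ i, τ (y j i) = y j i) ∧ ∀ i, τ (y j₀ i) = y j₀ (σ i))
    {E : Type} [Group E] (cls : E →* G) (T : E → Fin k → Perm (Fin n))
    (hT1 : ∀ e e' j, T (e * e') j = T e (act (cls e') j) * T e' j)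
    (hT2 : ∀ e j, Perm.sign (T e j) = ε (cls e) j)
    (hT3 : ∀ (g : G) (τ : Fin k → Perm (Fin n)), (∀ j, Perm.sign (τ j) = ε g j) →
      ∃! e : E, cls e = g ∧ T e = τ) :
    ∃ (Φ : (Ω ≃ₐ[F] Ω) →* E) (L : IntermediateField F Ω), Function.Surjective Φ ∧
      FiniteDimensional F L ∧ Φ.ker = L.fixingSubgroup ∧ ∀ γ, cls (Φ γ) = π γ := by
  classical
  choose P hP1 hP2 using hperm
  choose Φ hΦ using fun γ : Ω ≃ₐ[F] Ω => (hT3 (π γ) (P γ) (hP2 γ)).exists
  have hΦu : ∀ (γ : Ω ≃ₐ[F] Ω) (e : E), cls e = π γ → T e = P γ → Φ γ = e := fun γ e h1 h2 =>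
    (hT3 (π γ) (P γ) (hP2 γ)).unique (hΦ γ) ⟨h1, h2⟩
  have hPu : ∀ (γ : Ω ≃ₐ[F] Ω) (j : Fin k) (p : Perm (Fin n)),
      (∀ i, γ (y j i) = y (act (π γ) j) (p i)) → P γ j = p := by
    intro γ j p hp
    ext i
    have h1 := hinj _ ((hP1 γ j i).symm.trans (hp i))
    rw [h1]
  have hT11 : T 1 = 1 := by
    funext j
    have h1 := hT1 1 1 j
    rw [mul_one, map_one, map_one, Perm.one_apply] at h1
    exact (mul_eq_left.mp h1.symm)
  let Φh : (Ω ≃ₐ[F] Ω) →* E := MonoidHom.mk' Φ (by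
    intro γ γ'
    apply hΦu
    · rw [map_mul, (hΦ γ).1, (hΦ γ').1, map_mul]
    · funext j
      rw [hT1, (hΦ γ').1, (hΦ γ).2, (hΦ γ').2]
      symm
      apply hPu
      intro i
      rw [AlgEquiv.mul_apply, hP1 γ' j i, hP1 γ, map_mul, map_mul, Perm.mul_apply,
        Perm.mul_apply])
  have hΦh : ∀ γ, Φh γ = Φ γ := fun _ => rfl
  -- products of moves
  have hmoves : ∀ (σ : Fin k → Perm (Fin n)), (∀ j, Perm.sign (σ j) = 1) → ∀ S : Finset (Fin k),
      ∃ ν : Ω ≃ₐ[F] Ω, π ν = 1 ∧ (∀ j ∈ S, ∀ i, ν (y j i) = y j (σ j i)) ∧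
        ∀ j ∉ S, ∀ i, ν (y j i) = y j i := by
    intro σ hσ S
    induction S using Finset.induction with
    | empty => exact ⟨1, map_one _, by simp, by simp⟩
    | insert j₀ S hj₀ ih =>
      obtain ⟨ν, h1, h2, h3⟩ := ih
      obtain ⟨τ, t1, t2, t3⟩ := hmove j₀ (σ j₀) (hσ j₀)
      refine ⟨τ * ν, by rw [map_mul, h1, t1, one_mul], ?_, ?_⟩
      · intro j hj i
        rcases Finset.mem_insert.mp hj with rfl | hj
        · rw [AlgEquiv.mul_apply, h3 j hj₀, t3]
        · have hne : j ≠ j₀ := fun h => hj₀ (h ▸ hj)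
          rw [AlgEquiv.mul_apply, h2 j hj, t2 j hne]
      · intro j hj i
        rw [Finset.mem_insert, not_or] at hj
        rw [AlgEquiv.mul_apply, h3 j hj.2, t2 j hj.1]
  have hsurj : Function.Surjective Φh := by
    intro e
    obtain ⟨γ₀, hγ₀⟩ := hπ (cls e)
    obtain ⟨ν, h1, h2, -⟩ := hmoves (fun j => (P γ₀ j)⁻¹ * T e j) (by
      intro j
      rw [map_mul, map_inv, hP2, hγ₀, hT2, inv_mul_cancel]) Finset.univ
    refine ⟨γ₀ * ν, ?_⟩
    rw [hΦh]
    have hπν : π (γ₀ * ν) = cls e := by rw [map_mul, h1, mul_one, hγ₀]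
    apply hΦu
    · rw [hπν]
    · funext j
      symm
      apply hPu
      intro i
      rw [AlgEquiv.mul_apply, h2 j (Finset.mem_univ j), hP1, hπν, hγ₀, Perm.mul_apply]
      congr 1
      exact (P γ₀ j).apply_symm_apply _
  -- the kernel
  let Ly : IntermediateField F Ω := IntermediateField.adjoin F (⋃ j, Set.range (y j))
  have hfinset : (⋃ j, Set.range (y j)).Finite := Set.finite_iUnion fun j => Set.finite_range _
  have hfdy : FiniteDimensional F Ly := by
    have : Finite (⋃ j, Set.range (y j) : Set Ω) := hfinset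
    exact IntermediateField.finiteDimensional_adjoin fun x _ => Algebra.IsIntegral.isIntegral x
  have hfd : FiniteDimensional F (Lπ ⊔ Ly : IntermediateField F Ω) :=
    IntermediateField.finiteDimensional_sup Lπ Ly
  refine ⟨Φh, Lπ ⊔ Ly, hsurj, hfd, ?_, fun γ => (hΦ γ).1⟩
  rw [IntermediateField.fixingSubgroup_sup, ← hker]
  ext γ
  rw [MonoidHom.mem_ker, Subgroup.mem_inf, MonoidHom.mem_ker, hΦh]
  have hfix : γ ∈ Ly.fixingSubgroup ↔ ∀ j i, γ (y j i) = y j i := by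
    constructor
    · intro h j i
      exact (IntermediateField.mem_fixingSubgroup_iff _ _).mp h _
        (IntermediateField.subset_adjoin _ _ (Set.mem_iUnion.mpr ⟨j, i, rfl⟩))
    · intro h
      have h1 : Ly ≤ IntermediateField.fixedField (Subgroup.zpowers γ) := by
        rw [IntermediateField.adjoin_le_iff]
        rintro x hx
        obtain ⟨j, i, rfl⟩ := Set.mem_iUnion.mp hx
        rintro ⟨δ, m, rfl⟩
        change (γ ^ m) (y j i) = y j i
        have h2 : γ ∈ MulAction.stabilizer (Ω ≃ₐ[F] Ω) (y j i) := h j i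
        exact (MulAction.stabilizer (Ω ≃ₐ[F] Ω) (y j i)).zpow_mem h2 m
      have h3 := (IntermediateField.le_iff_le _ _).mp h1
      exact h3 (Subgroup.mem_zpowers γ)
  rw [hfix]
  constructor
  · intro h
    have h1 : π γ = 1 := by
      rw [← (hΦ γ).1, h, map_one]
    refine ⟨h1, fun j i => ?_⟩
    have h2 : P γ = 1 := by
      rw [← (hΦ γ).2, h, hT11]
    rw [hP1 γ j i, h1, h2, map_one]
    rfl
  · rintro ⟨h1, h2⟩
    apply hΦu
    · rw [map_one, h1]
    · rw [hT11]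
      funext j
      symm
      apply hPu
      intro i
      rw [h2 j i, h1, map_one]
      rfl

end MP7fA
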