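import Pool.Agent.Lib.MP_7f581e_ntA.Move
import Pool.Agent.Lib.HilbertFq.Red

/-!
Realisation of an extension with kernel `A_n ^ k` in characteristic two, over the field of
invariants of the twisted action.
-/

set_option autoImplicit false

universe u

namespace MP7fA

open Polynomial Equiv

section lift

variable {M F N Ω : Type u} [Field M] [Field F] [Field N] [Field Ω] [Algebra F N] [Algebra M N]
  [Algebra N Ω] [Algebra F Ω] [IsScalarTower F N Ω] [Algebra M Ω] [IsScalarTower M N Ω]
  [Normal F Ω] {k : ℕ}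

theorem exists_lift_move (e : Fin k → N) (hgenN : IntermediateField.adjoin M (Set.range e) = ⊤)
    (L : IntermediateField M Ω) (heL : ∀ j, algebraMap N Ω (e j) ∈ L) (τ : L ≃ₐ[M] L)
    (hτe : ∀ j, τ ⟨algebraMap N Ω (e j), heL j⟩ = ⟨algebraMap N Ω (e j), heL j⟩) :
    ∃ τ' : Ω ≃ₐ[F] Ω, (∀ x : N, τ' (algebraMap N Ω x) = algebraMap N Ω x) ∧
      ∀ x : L, τ' (x : Ω) = (τ x : Ω) := by
  have hNL : ∀ x : N, algebraMap N Ω x ∈ L := by
    intro x
    have h1 : (⊤ : IntermediateField M N) ≤
        (L.toSubfield.comap (algebraMap N Ω)).toIntermediateField (by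
          intro m
          change algebraMap N Ω (algebraMap M N m) ∈ L
          rw [← IsScalarTower.algebraMap_apply]
          exact L.algebraMap_mem m) := by
      rw [← hgenN, IntermediateField.adjoin_le_iff]
      rintro _ ⟨j, rfl⟩
      exact heL j
    exact h1 (IntermediateField.mem_top (x := x))
  let φN : N →+* L := (algebraMap N Ω).codRestrict L hNL
  have hφN : ∀ x, ((φN x : L) : Ω) = algebraMap N Ω x := fun _ => rfl
  have hτN : ∀ x : N, τ (φN x) = φN x := by
    intro x
    have h1 : (⊤ : IntermediateField M N) ≤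
        (RingHom.eqLocusField ((τ : L →+* L).comp φN) φN).toIntermediateField (by
          intro m
          change τ (φN (algebraMap M N m)) = φN (algebraMap M N m)
          have h2 : φN (algebraMap M N m) = algebraMap M L m := by
            apply Subtype.ext
            rw [hφN, ← IsScalarTower.algebraMap_apply]
            rfl
          rw [h2, AlgEquiv.commutes]) := by
      rw [← hgenN, IntermediateField.adjoin_le_iff]
      rintro _ ⟨j, rfl⟩
      exact hτe j
    exact h1 (IntermediateField.mem_top (x := x))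
  let _ : Algebra F L := (φN.comp (algebraMap F N)).toAlgebra
  have htow : IsScalarTower F L Ω := IsScalarTower.of_algebraMap_eq fun x => by
    rw [IsScalarTower.algebraMap_apply F N Ω]
    rfl
  let τF : L ≃ₐ[F] L := AlgEquiv.ofRingEquiv (f := (τ : L ≃+* L)) fun x => hτN (algebraMap F N x)
  refine ⟨τF.liftNormal Ω, fun x => ?_, fun x => ?_⟩
  · have h1 := AlgEquiv.liftNormal_commutes τF Ω (φN x)
    have h2 : algebraMap L Ω (φN x) = algebraMap N Ω x := rfl
    rw [h2] at h1
    rw [h1]
    change ((τ (φN x) : L) : Ω) = _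
    rw [hτN, hφN]
  · exact AlgEquiv.liftNormal_commutes τF Ω x

end lift

/-- Transcendence of the parameter. -/
theorem transcendental_param {A L : Type*} [Field A] [Field L] [Algebra A L] (c γ b : A)
    (hγ : γ ≠ 0) (E v : L)
    (h : (E ^ 2 + E + algebraMap A L c) * (v + algebraMap A L b) = algebraMap A L γ)
    (hE : Transcendental A E) : Transcendental A v := by
  intro halg
  apply hE
  have hγ' : algebraMap A L γ ≠ 0 := by
    rw [Ne, map_eq_zero]
    exact hγ
  have hvb : v + algebraMap A L b ≠ 0 := right_ne_zero_of_mul (h ▸ hγ')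
  have h1 : IsAlgebraic A (E ^ 2 + E) := by
    have h2 : E ^ 2 + E = algebraMap A L γ * (v + algebraMap A L b)⁻¹ - algebraMap A L c := by
      rw [eq_sub_iff_add_eq, ← div_eq_mul_inv, eq_div_iff hvb]
      exact h
    have h3 : ∀ a : A, IsAlgebraic A (algebraMap A L a) := fun a => isAlgebraic_algebraMap a
    rw [h2]
    exact ((h3 _).mul (halg.add (h3 _)).inv).sub (h3 _)
  refine IsAlgebraic.of_aeval (X ^ 2 + X : A[X]) ?_ ?_ (by simpa using h1)
  · have : (X ^ 2 + X : A[X]).natDegree = 2 := by compute_degree!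
    omega
  · have h4 : (X ^ 2 + X : A[X]).Monic := by monicity!
    rw [h4.leadingCoeff]
    exact one_mem _

section core

variable {K M F N Ω : Type u} [Field K] [Field M] [Field F] [Field N] [Field Ω] [Algebra K M]
  [Algebra F N] [Algebra M N] [Algebra N Ω] [Algebra F Ω] [IsScalarTower F N Ω] [Algebra M Ω]
  [IsScalarTower M N Ω] [Algebra K Ω] [IsScalarTower K M Ω] [FiniteDimensional F N]
  [IsGalois F N] [CharP Ω 2] {n k : ℕ}

/-- Roots of a member of the pencil with normalised sign element. -/
theorem exists_roots [IsSepClosed Ω] (hn : 2 ≤ n) (g : GA n K) (E v : Ω)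
    (hrel : (E ^ 2 + E + algebraMap K Ω g.c) * (v + algebraMap K Ω g.b) = algebraMap K Ω g.γ)
    (htr : Transcendental K v) :
    ∃ y : Fin n → Ω, Function.Injective y ∧
      g.P.map (algebraMap K Ω) + C v * g.Q.map (algebraMap K Ω) = ∏ i, (X - C (y i)) ∧
      MP7f.vP y ≠ 0 ∧ sg y + ev v htr g.w = E := by
  have hpen : (pen g.P g.Q).map (ev v htr) =
      g.P.map (algebraMap K Ω) + C v * g.Q.map (algebraMap K Ω) := by
    rw [pen, Polynomial.map_add, Polynomial.map_mul, map_C, ev_X, Polynomial.map_map,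
      Polynomial.map_map]
    have h5 : (ev v htr).comp (algebraMap K (RatFunc K)) = algebraMap K Ω :=
      RingHom.ext (ev_C v htr)
    rw [h5]
  set f := g.P.map (algebraMap K Ω) + C v * g.Q.map (algebraMap K Ω) with hf
  have hdegQ : (C v * g.Q.map (algebraMap K Ω)).degree < (g.P.map (algebraMap K Ω)).degree := by
    refine (degree_mul_le _ _).trans_lt ?_
    refine (add_le_add degree_C_le degree_map_le).trans_lt ?_
    rw [zero_add, degree_eq_natDegree (g.monic.map _).ne_zero, g.monic.natDegree_map, g.deg]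
    exact g.degQ
  have hmon : f.Monic := (g.monic.map _).add_of_left hdegQ
  have hdeg : f.natDegree = n := by
    rw [hf, natDegree_add_eq_left_of_degree_lt hdegQ, g.monic.natDegree_map, g.deg]
  have hsep : f.Separable := by
    rw [← hpen]
    exact g.sep.map
  obtain ⟨y', hy'⟩ := HilbertFq.exists_enum f (IsSepClosed.splits_of_separable f hsep)
  obtain ⟨y, hy⟩ : ∃ y : Fin n → Ω, f = ∏ i, (X - C (y i)) := by
    rw [hmon.leadingCoeff, C_1, one_mul] at hy'
    rw [← hdeg]
    exact ⟨y', hy'⟩
  have hinj : Function.Injective y := by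
    rw [← separable_prod_X_sub_C_iff, ← hy]
    exact hsep
  have hvP : ∀ z : Fin n → Ω, Function.Injective z → f = ∏ i, (X - C (z i)) → MP7f.vP z ≠ 0 :=
    fun z hz hz' => (g.sign Ω (ev v htr) z hz (by rw [hpen, hz'])).1
  rcases sg_cases g (ev v htr) (ev_C v htr) y hinj E v (ev_X v htr) hrel (by rw [hpen, hy])
    with h | h
  · exact ⟨y, hinj, hy, hvP y hinj hy, h⟩
  · obtain ⟨m, rfl⟩ : ∃ m, n = m + 2 := ⟨n - 2, by omega⟩
    have hinj' : Function.Injective (y ∘ swap (0 : Fin (m + 2)) 1) :=
      hinj.comp (swap (0 : Fin (m + 2)) 1).injective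
    have hy2 : f = ∏ i, (X - C ((y ∘ swap (0 : Fin (m + 2)) 1) i)) := by
      rw [hy]
      exact (Equiv.prod_comp (swap (0 : Fin (m + 2)) 1) fun i => (X - C (y i))).symm
    refine ⟨y ∘ swap (0 : Fin (m + 2)) 1, hinj', hy2, hvP _ hinj' hy2, ?_⟩
    rw [sg_comp_odd y (hvP y hinj hy) _ (Perm.sign_swap (by simp))]
    have two0 : (2 : Ω) = 0 := CharTwo.two_eq_zero
    linear_combination h + two0

end core

end MP7fA
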