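import Pool.Agent.Lib.MP_7f581e_ntA.Gadget

/-!
Disjointness of the splitting fields of the members of a pencil at algebraically independent
parameters.
-/

set_option autoImplicit false

universe u

namespace MP7fA

open Polynomial Equiv

section sign

variable {n : ℕ} {L : Type*} [Field L] [CharP L 2]

/-- The sign element of a tuple. -/
noncomputable def sg (y : Fin n → L) : L := MP7f.vE y / MP7f.vP y

theorem sg_comp_even (y : Fin n → L) (p : Perm (Fin n)) (hp : Perm.sign p = 1) :
    sg (y ∘ p) = sg y := by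
  unfold sg
  rw [MP7f.vE_comp_even _ _ hp, MP7f.vP_comp]

theorem sg_comp_odd (y : Fin n → L) (hy : MP7f.vP y ≠ 0) (p : Perm (Fin n))
    (hp : Perm.sign p = -1) : sg (y ∘ p) = sg y + 1 := by
  unfold sg
  rw [MP7f.vE_comp_odd _ _ hp, MP7f.vP_comp, sub_div, div_self hy]
  have two0 : (2 : L) = 0 := CharTwo.two_eq_zero
  linear_combination -(MP7f.vE y / MP7f.vP y) * two0

theorem map_sg {L' : Type*} [Field L'] (f : L →+* L') (y : Fin n → L) :
    f (sg y) = sg (f ∘ y) := by
  unfold sg
  rw [map_div₀, MP7f.map_vE, MP7f.map_vP]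

end sign

section subst

variable {K L : Type*} [Field K] [Field L] [Algebra K L]

/-- Evaluation of rational functions at a transcendental element. -/
noncomputable def ev (v : L) (hv : Transcendental K v) : RatFunc K →+* L :=
  IsFractionRing.lift (A := K[X]) (K := RatFunc K) (g := (aeval v : K[X] →ₐ[K] L).toRingHom)
    (transcendental_iff_injective.mp hv)

theorem ev_poly (v : L) (hv : Transcendental K v) (p : K[X]) :
    ev v hv (algebraMap K[X] (RatFunc K) p) = aeval v p :=
  IsFractionRing.lift_algebraMap _ p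

theorem ev_X (v : L) (hv : Transcendental K v) : ev v hv RatFunc.X = v := by
  rw [← RatFunc.algebraMap_X, ev_poly, aeval_X]

theorem ev_C (v : L) (hv : Transcendental K v) (a : K) :
    ev v hv (algebraMap K (RatFunc K) a) = algebraMap K L a := by
  have h : algebraMap K (RatFunc K) a = algebraMap K[X] (RatFunc K) (C a) := by
    rw [← Polynomial.algebraMap_eq, ← IsScalarTower.algebraMap_apply]
  rw [h, ev_poly, aeval_C]

theorem ringHom_ext_ratFunc {R : Type*} [Field R] (f g : RatFunc K →+* R)
    (hC : ∀ a : K, f (algebraMap K (RatFunc K) a) = g (algebraMap K (RatFunc K) a))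
    (hX : f RatFunc.X = g RatFunc.X) : f = g := by
  apply IsLocalization.ringHom_ext (nonZeroDivisors K[X])
  apply Polynomial.ringHom_ext
  · intro a
    have h : algebraMap K (RatFunc K) a = algebraMap K[X] (RatFunc K) (C a) := by
      rw [← Polynomial.algebraMap_eq, ← IsScalarTower.algebraMap_apply]
    rw [RingHom.comp_apply, RingHom.comp_apply, ← h]
    exact hC a
  · simpa only [RingHom.comp_apply, RatFunc.algebraMap_X] using hX

theorem ev_mem (v : L) (hv : Transcendental K v) (T : Subfield L)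
    (hK : ∀ a : K, algebraMap K L a ∈ T) (hvT : v ∈ T) (r : RatFunc K) : ev v hv r ∈ T := by
  have hpoly : ∀ p : K[X], aeval v p ∈ T := by
    intro p
    rw [aeval_eq_sum_range]
    refine sum_mem fun i _ => ?_
    rw [Algebra.smul_def]
    exact T.mul_mem (hK _) (T.pow_mem hvT i)
  induction r using RatFunc.induction_on with
  | _ p q hq =>
    rw [map_div₀, ev_poly, ev_poly]
    exact T.div_mem (hpoly p) (hpoly q)

theorem sg_mem {n : ℕ} (T : Subfield L) (y : Fin n → L) (hy : ∀ i, y i ∈ T) : sg y ∈ T := by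
  have hterm : ∀ σ : Perm (Fin n), MP7f.term y σ ∈ T := fun σ =>
    prod_mem fun i _ => T.pow_mem (hy _) _
  refine T.div_mem (sum_mem fun σ _ => ?_) (sum_mem fun σ _ => hterm σ)
  split_ifs
  · exact hterm σ
  · exact T.zero_mem

end subst

section main

variable {K M L : Type u} [Field K] [Field M] [Field L] [Algebra K M] [Algebra M L] [Algebra K L]
  [IsScalarTower K M L] [CharP L 2] {n k : ℕ}

/-- The sign relation, solved. -/
theorem sg_cases (g : GA n K) (φ : RatFunc K →+* L)
    (hφ : ∀ a : K, φ (algebraMap K (RatFunc K) a) = algebraMap K L a) (y : Fin n → L)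
    (hinj : Function.Injective y) (e v : L) (hvφ : φ RatFunc.X = v)
    (hv : (e ^ 2 + e + algebraMap K L g.c) * (v + algebraMap K L g.b) = algebraMap K L g.γ)
    (hy : (pen g.P g.Q).map φ = ∏ i, (X - C (y i))) :
    sg y + φ g.w = e ∨ sg y + φ g.w = e + 1 := by
  obtain ⟨hP, h1⟩ := g.sign L φ y hinj hy
  have two0 : (2 : L) = 0 := CharTwo.two_eq_zero
  have hγ : algebraMap K L g.γ ≠ 0 := by
    rw [Ne, map_eq_zero]
    exact g.hγ
  have hvb : v + algebraMap K L g.b ≠ 0 := right_ne_zero_of_mul (hv ▸ hγ)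
  have h2 : φ (algebraMap K (RatFunc K) g.c +
      algebraMap K (RatFunc K) g.γ / (RatFunc.X + algebraMap K (RatFunc K) g.b)) = e ^ 2 + e := by
    rw [map_add, map_div₀, map_add, hφ, hφ, hφ, hvφ, ← hv, mul_div_assoc, div_self hvb]
    linear_combination algebraMap K L g.c * two0
  rw [h2] at h1
  change (sg y + φ g.w) ^ 2 + (sg y + φ g.w) = e ^ 2 + e at h1
  have h3 : (sg y + φ g.w - e) * (sg y + φ g.w - (e + 1)) = 0 := by
    linear_combination h1 + (e ^ 2 + e - (sg y + φ g.w) - e * (sg y + φ g.w)) * two0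
  rcases mul_eq_zero.mp h3 with h | h
  · exact Or.inl (sub_eq_zero.mp h)
  · exact Or.inr (sub_eq_zero.mp h)

/-- An even permutation of the roots of one member of the pencil, all other data fixed. -/
theorem exists_move (g : GA n K) (e : Fin k → L) (he : AlgebraicIndependent M e)
    (y : Fin k → Fin n → L) (hinj : ∀ j, Function.Injective (y j)) (v : Fin k → L)
    (hv : ∀ j, (e j ^ 2 + e j + algebraMap K L g.c) * (v j + algebraMap K L g.b) =
      algebraMap K L g.γ)
    (hy : ∀ j, g.P.map (algebraMap K L) + C (v j) * g.Q.map (algebraMap K L) =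
      ∏ i, (X - C (y j i)))
    (hgen : IntermediateField.adjoin M (Set.range e ∪ ⋃ j, Set.range (y j)) = ⊤)
    (j₀ : Fin k) (σ : Perm (Fin n)) (hσ : Perm.sign σ = 1) :
    ∃ τ : L ≃ₐ[M] L, (∀ j, τ (e j) = e j) ∧ (∀ j, j ≠ j₀ → ∀ i, τ (y j i) = y j i) ∧
      ∀ i, τ (y j₀ i) = y j₀ (σ i) := by
  classical
  let F₀ : IntermediateField M L := IntermediateField.adjoin M (e '' {j₀}ᶜ)
  have htr0 : Transcendental F₀ (e j₀) :=
    IntermediateField.transcendental_adjoin_iff.mpr (he.transcendental_adjoin (by simp))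
  let A : IntermediateField F₀ L := algebraicClosure F₀ L
  have htrA : Transcendental A (e j₀) := htr0.extendScalars A
  have hγ : algebraMap K L g.γ ≠ 0 := by
    rw [Ne, map_eq_zero]
    exact g.hγ
  have hvb : ∀ j, v j + algebraMap K L g.b ≠ 0 := fun j => right_ne_zero_of_mul (hv j ▸ hγ)
  have hebc : ∀ j, e j ^ 2 + e j + algebraMap K L g.c ≠ 0 :=
    fun j => left_ne_zero_of_mul (hv j ▸ hγ)
  have hveq : ∀ j, v j = algebraMap K L g.γ / (e j ^ 2 + e j + algebraMap K L g.c) -
      algebraMap K L g.b := by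
    intro j
    have h1 := hebc j
    rw [eq_sub_iff_add_eq, eq_div_iff h1, mul_comm]
    exact hv j
  have hKA : ∀ a : K, algebraMap K L a ∈ A := by
    intro a
    rw [IsScalarTower.algebraMap_apply K M L, IsScalarTower.algebraMap_apply M F₀ L]
    exact A.algebraMap_mem _
  have hMA : ∀ a : M, algebraMap M L a ∈ A := by
    intro a
    rw [IsScalarTower.algebraMap_apply M F₀ L]
    exact A.algebraMap_mem _
  have htrv : Transcendental A (v j₀) := by
    intro halg
    apply htrA
    have h1 : IsAlgebraic A (e j₀ ^ 2 + e j₀) := by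
      have h2 : e j₀ ^ 2 + e j₀ = algebraMap K L g.γ * (v j₀ + algebraMap K L g.b)⁻¹ -
          algebraMap K L g.c := by
        rw [eq_sub_iff_add_eq, ← div_eq_mul_inv, eq_div_iff (hvb j₀)]
        exact hv j₀
      have h3 : ∀ a : K, IsAlgebraic A (algebraMap K L a) := fun a =>
        isAlgebraic_algebraMap (⟨_, hKA a⟩ : A)
      rw [h2]
      exact ((h3 _).mul (halg.add (h3 _)).inv).sub (h3 _)
    refine IsAlgebraic.of_aeval (X ^ 2 + X : A[X]) ?_ ?_ (by simpa using h1)
    · have : (X ^ 2 + X : A[X]).natDegree = 2 := by compute_degree!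
      omega
    · have h4 : (X ^ 2 + X : A[X]).Monic := by monicity!
      rw [h4.leadingCoeff]
      exact one_mem _
  let _ : Algebra (RatFunc A) L := (ev (v j₀) htrv).toAlgebra
  have halgX : algebraMap (RatFunc A) L RatFunc.X = v j₀ := ev_X _ _
  have halgC : ∀ a : A, algebraMap (RatFunc A) L (algebraMap A (RatFunc A) a) = (a : L) :=
    fun a => ev_C _ _ a
  let _ : Algebra K A := ((algebraMap K L).codRestrict A hKA).toAlgebra
  have hKAL : (algebraMap A L).comp (algebraMap K A) = algebraMap K L := rfl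
  have htowA : IsScalarTower K A L := IsScalarTower.of_algebraMap_eq fun _ => rfl
  have hpen : (pen (g.P.map (algebraMap K A)) (g.Q.map (algebraMap K A))).map
      (algebraMap (RatFunc A) L) = ∏ i, (X - C (y j₀ i)) := by
    rw [← hy j₀, pen, Polynomial.map_add, Polynomial.map_mul, map_C, halgX]
    have h5 : (algebraMap (RatFunc A) L).comp (algebraMap A (RatFunc A)) = algebraMap A L :=
      RingHom.ext halgC
    simp only [Polynomial.map_map]
    rw [← RingHom.comp_assoc, h5, hKAL]
  -- transcendence over `K` and the sign element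
  have htrvK : Transcendental K (v j₀) := htrv.restrictScalars (algebraMap K A).injective
  have hsg := sg_cases g (ev (v j₀) htrvK) (ev_C (v j₀) htrvK) (y j₀) (hinj j₀) (e j₀) (v j₀)
    (ev_X (v j₀) htrvK)
    (hv j₀) (by
      rw [← hy j₀, pen, Polynomial.map_add, Polynomial.map_mul, map_C, ev_X,
        Polynomial.map_map, Polynomial.map_map]
      have h5 : (ev (v j₀) htrvK).comp (algebraMap K (RatFunc K)) = algebraMap K L :=
        RingHom.ext (ev_C (v j₀) htrvK)
      rw [h5])
  -- generation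
  have hyalg : ∀ x ∈ Set.range (y j₀), IsAlgebraic (RatFunc A) x := by
    rintro _ ⟨i, rfl⟩
    refine ⟨pen (g.P.map (algebraMap K A)) (g.Q.map (algebraMap K A)), ?_, ?_⟩
    · intro h0
      rw [h0, Polynomial.map_zero] at hpen
      have h6 : (∏ i, (X - C (y j₀ i))).Monic := monic_prod_of_monic _ _ fun i _ => monic_X_sub_C _
      rw [← hpen] at h6
      exact not_monic_zero h6
    · rw [← eval_map_algebraMap, hpen, eval_prod, Finset.prod_eq_zero (Finset.mem_univ i) (by simp)]
  have hAe : ∀ j, j ≠ j₀ → e j ∈ A := by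
    intro j hj
    exact A.algebraMap_mem (⟨e j, IntermediateField.subset_adjoin _ _ ⟨j, hj, rfl⟩⟩ : F₀)
  have hF₀e : ∀ j, j ≠ j₀ → e j ∈ F₀ := fun j hj =>
    IntermediateField.subset_adjoin _ _ ⟨j, hj, rfl⟩
  have hF₀K : ∀ a : K, algebraMap K L a ∈ F₀ := by
    intro a
    rw [IsScalarTower.algebraMap_apply K M L]
    exact F₀.algebraMap_mem _
  have hF₀v : ∀ j, j ≠ j₀ → v j ∈ F₀ := by
    intro j hj
    rw [hveq j]
    exact F₀.sub_mem (F₀.div_mem (hF₀K _) (F₀.add_mem (F₀.add_mem (pow_mem (hF₀e j hj) 2)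
      (hF₀e j hj)) (hF₀K _))) (hF₀K _)
  have hAy : ∀ j, j ≠ j₀ → ∀ i, y j i ∈ A := by
    intro j hj i
    change y j i ∈ algebraicClosure F₀ L
    rw [mem_algebraicClosure_iff]
    let κ : K →+* F₀ := (algebraMap K L).codRestrict F₀ hF₀K
    have hκ : (algebraMap F₀ L).comp κ = algebraMap K L := rfl
    have hmon : (g.P.map κ + C (⟨v j, hF₀v j hj⟩ : F₀) * g.Q.map κ).Monic := by
      refine (g.monic.map κ).add_of_left ?_
      refine (degree_mul_le _ _).trans_lt ?_
      refine (add_le_add degree_C_le degree_map_le).trans_lt ?_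
      rw [zero_add]
      rw [degree_eq_natDegree (g.monic.map κ).ne_zero, g.monic.natDegree_map, g.deg]
      exact g.degQ
    refine ⟨g.P.map κ + C (⟨v j, hF₀v j hj⟩ : F₀) * g.Q.map κ, hmon.ne_zero, ?_⟩
    rw [← eval_map_algebraMap, Polynomial.map_add, Polynomial.map_mul, map_C,
      Polynomial.map_map, Polynomial.map_map, hκ]
    change eval (y j i) (g.P.map (algebraMap K L) + C (v j) * g.Q.map (algebraMap K L)) = 0
    rw [hy j, eval_prod, Finset.prod_eq_zero (Finset.mem_univ i) (by simp)]
  have hgenA : Algebra.adjoin (RatFunc A) (Set.range (y j₀)) = ⊤ := by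
    rw [← IntermediateField.adjoin_eq_top_iff_of_isAlgebraic hyalg]
    set T := IntermediateField.adjoin (RatFunc A) (Set.range (y j₀)) with hT
    have hTA : ∀ a : A, (a : L) ∈ T := by
      intro a
      rw [← halgC a]
      exact T.algebraMap_mem _
    have hTv : v j₀ ∈ T := by
      rw [← halgX]
      exact T.algebraMap_mem _
    have hTy : ∀ i, y j₀ i ∈ T := fun i =>
      IntermediateField.subset_adjoin _ _ (Set.mem_range_self i)
    have hTe : e j₀ ∈ T := by
      have h1 : sg (y j₀) + ev (v j₀) htrvK g.w ∈ T.toSubfield :=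
        T.toSubfield.add_mem (sg_mem T.toSubfield (y j₀) hTy)
          (ev_mem (v j₀) htrvK T.toSubfield (fun a => hTA ⟨_, hKA a⟩) hTv g.w)
      rcases hsg with h | h
      · rw [← h]
        exact h1
      · have h2 : e j₀ = sg (y j₀) + ev (v j₀) htrvK g.w - 1 := by
          rw [h]
          ring
        rw [h2]
        exact T.toSubfield.sub_mem h1 T.toSubfield.one_mem
    let T' : IntermediateField M L := T.toSubfield.toIntermediateField fun m => hTA ⟨_, hMA m⟩
    have hT' : (⊤ : IntermediateField M L) ≤ T' := by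
      rw [← hgen, IntermediateField.adjoin_le_iff]
      rintro x (⟨j, rfl⟩ | hx)
      · by_cases hj : j = j₀
        · rw [hj]
          exact hTe
        · exact hTA ⟨_, hAe j hj⟩
      · obtain ⟨j, i, rfl⟩ := Set.mem_iUnion.mp hx
        by_cases hj : j = j₀
        · rw [hj]
          exact hTy i
        · exact hTA ⟨_, hAy j hj i⟩
    rw [eq_top_iff]
    intro x _
    exact hT' (IntermediateField.mem_top)
  obtain ⟨τ, hτ⟩ := g.gal A L (y j₀) hpen hgenA σ
  have hτA : ∀ a : L, a ∈ A → τ a = a := by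
    intro a ha
    have h1 := τ.commutes (algebraMap A (RatFunc A) ⟨a, ha⟩)
    rwa [halgC] at h1
  have hτv : τ (v j₀) = v j₀ := by
    rw [← halgX]
    exact τ.commutes _
  have hτw : τ (ev (v j₀) htrvK g.w) = ev (v j₀) htrvK g.w := by
    have h1 : ((τ : L →+* L).comp (ev (v j₀) htrvK)) = ev (v j₀) htrvK := by
      apply ringHom_ext_ratFunc
      · intro a
        rw [RingHom.comp_apply, ev_C]
        exact hτA _ (hKA a)
      · rw [RingHom.comp_apply, ev_X]
        exact hτv
    exact DFunLike.congr_fun h1 g.w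
  have hτsg : τ (sg (y j₀)) = sg (y j₀) := by
    have h1 := map_sg (τ : L →+* L) (y j₀)
    have h2 : ((τ : L →+* L) ∘ y j₀) = y j₀ ∘ σ := funext fun i => hτ i
    rw [h2, sg_comp_even _ _ hσ] at h1
    exact h1
  have hτe : τ (e j₀) = e j₀ := by
    rcases hsg with h | h
    · rw [← h, map_add, hτsg, hτw]
    · have h2 : e j₀ = sg (y j₀) + ev (v j₀) htrvK g.w - 1 := by
        rw [h]
        ring
      rw [h2, map_sub, map_add, hτsg, hτw, map_one]
  refine ⟨AlgEquiv.ofRingEquiv (f := (τ : L ≃+* L)) fun m => hτA _ (hMA m), ?_, ?_, ?_⟩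
  · intro j
    change τ (e j) = e j
    by_cases hj : j = j₀
    · rw [hj]
      exact hτe
    · exact hτA _ (A.algebraMap_mem (⟨e j, IntermediateField.subset_adjoin _ _ ⟨j, hj, rfl⟩⟩ : F₀))
  · intro j hj i
    change τ (y j i) = y j i
    exact hτA _ (hAy j hj i)
  · intro i
    exact hτ i

end main

end MP7fA
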