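import Pool.Agent.Lib.MP_7f581e_ntA.GadgetO
import Pool.Agent.Lib.MP_7f581e_ntA.Move

/-!
Disjointness of the splitting fields of the members of a pencil at algebraically independent
parameters, characteristic different from two.
-/

set_option autoImplicit false

universe u

namespace MP7fA

open Polynomial Equiv

theorem vV_comp_even {n : ℕ} {L : Type*} [Field L] (y : Fin n → L) (p : Perm (Fin n))
    (hp : Perm.sign p = 1) : MP7f.vV (y ∘ p) = MP7f.vV y := by
  rw [MP7f.vV_comp, hp]
  simp

theorem vV_comp_odd {n : ℕ} {L : Type*} [Field L] (y : Fin n → L) (p : Perm (Fin n))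
    (hp : Perm.sign p = -1) : MP7f.vV (y ∘ p) = -MP7f.vV y := by
  rw [MP7f.vV_comp, hp]
  simp

theorem vV_mem {n : ℕ} {L : Type*} [Field L] (T : Subfield L) (y : Fin n → L)
    (hy : ∀ i, y i ∈ T) : MP7f.vV y ∈ T := by
  have h1 : MP7f.vV y = T.subtype (MP7f.vV fun i => (⟨y i, hy i⟩ : T)) := by
    rw [MP7f.map_vV]
    rfl
  rw [h1]
  exact Subtype.mem _

/-- The denominators do not vanish. -/
theorem den_ne_zero {L : Type*} [Field L] {a1 a0 b1 b0 e v : L} (hab : a1 * b0 - a0 * b1 ≠ 0)
    (h : e ^ 2 * (b1 * v + b0) = a1 * v + a0) : b1 * v + b0 ≠ 0 ∧ b1 * e ^ 2 - a1 ≠ 0 := by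
  constructor
  · intro h0
    apply hab
    rw [h0, mul_zero] at h
    linear_combination a1 * h0 + b1 * h
  · intro h0
    apply hab
    linear_combination b1 * h + (-(b1 * v) - b0) * h0

section main

variable {K M L : Type u} [Field K] [Field M] [Field L] [Algebra K M] [Algebra M L] [Algebra K L]
  [IsScalarTower K M L] {n k : ℕ}

/-- The sign relation, solved. -/
theorem sgo_cases (g : GAo n K) (φ : RatFunc K →+* L)
    (hφ : ∀ a : K, φ (algebraMap K (RatFunc K) a) = algebraMap K L a) (y : Fin n → L)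
    (hinj : Function.Injective y) (e v : L) (hvφ : φ RatFunc.X = v)
    (hv : e ^ 2 * (algebraMap K L g.b1 * v + algebraMap K L g.b0) =
      algebraMap K L g.a1 * v + algebraMap K L g.a0)
    (hy : (pen g.P g.Q).map φ = ∏ i, (X - C (y i))) :
    MP7f.vV y * φ g.r = e ∨ MP7f.vV y * φ g.r = -e := by
  have h1 := g.sign L φ y hinj hy
  have hab : algebraMap K L g.a1 * algebraMap K L g.b0 -
      algebraMap K L g.a0 * algebraMap K L g.b1 ≠ 0 := by
    rw [← map_mul, ← map_mul, ← map_sub, Ne, map_eq_zero]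
    exact g.hab
  have hd := (den_ne_zero hab hv).1
  rw [map_add, map_mul, map_add, map_mul, hφ, hφ, hφ, hφ, hvφ, ← hv] at h1
  have h2 := mul_right_cancel₀ hd h1
  exact sq_eq_sq_iff_eq_or_eq_neg.mp h2

theorem transcendental_paramo {A : Type*} [Field A] [Algebra A L] (a1 a0 b1 b0 : A)
    (hab : a1 * b0 - a0 * b1 ≠ 0) (E v : L)
    (h : E ^ 2 * (algebraMap A L b1 * v + algebraMap A L b0) =
      algebraMap A L a1 * v + algebraMap A L a0)
    (hE : Transcendental A E) : Transcendental A v := by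
  intro halg
  apply hE
  have hab' : algebraMap A L a1 * algebraMap A L b0 - algebraMap A L a0 * algebraMap A L b1 ≠ 0 := by
    rw [← map_mul, ← map_mul, ← map_sub, Ne, map_eq_zero]
    exact hab
  have hd := (den_ne_zero hab' h).1
  have h1 : IsAlgebraic A (E ^ 2) := by
    rw [eq_div_of_mul_eq hd h, div_eq_mul_inv]
    have h3 : ∀ a : A, IsAlgebraic A (algebraMap A L a) := fun a => isAlgebraic_algebraMap a
    exact (((h3 _).mul halg).add (h3 _)).mul (((h3 _).mul halg).add (h3 _)).inv
  exact h1.of_pow (by norm_num)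

/-- An even permutation of the roots of one member of the pencil, all other data fixed. -/
theorem exists_moveo (g : GAo n K) (e : Fin k → L) (he : AlgebraicIndependent M e)
    (y : Fin k → Fin n → L) (hinj : ∀ j, Function.Injective (y j)) (v : Fin k → L)
    (hv : ∀ j, e j ^ 2 * (algebraMap K L g.b1 * v j + algebraMap K L g.b0) =
      algebraMap K L g.a1 * v j + algebraMap K L g.a0)
    (hy : ∀ j, g.P.map (algebraMap K L) + C (v j) * g.Q.map (algebraMap K L) =
      ∏ i, (X - C (y j i)))
    (hgen : IntermediateField.adjoin M (Set.range e ∪ ⋃ j, Set.range (y j)) = ⊤)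
    (j₀ : Fin k) (σ : Perm (Fin n)) (hσ : Perm.sign σ = 1) :
    ∃ τ : L ≃ₐ[M] L, (∀ j, τ (e j) = e j) ∧ (∀ j, j ≠ j₀ → ∀ i, τ (y j i) = y j i) ∧
      ∀ i, τ (y j₀ i) = y j₀ (σ i) := by
  classical
  let F₀ : IntermediateField M L := IntermediateField.adjoin M (e '' {j₀}ᶜ)
  have htr0 : Transcendental F₀ (e j₀) :=
    IntermediateField.transcendental_adjoin_iff.mpr (he.transcendental_adjoin (by simp))
  let A : IntermediateField F₀ L := algebraicClosure F₀ L
  have htrA : Transcendental A (e j₀) := htr0.extendScalars A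
  have hab : algebraMap K L g.a1 * algebraMap K L g.b0 -
      algebraMap K L g.a0 * algebraMap K L g.b1 ≠ 0 := by
    rw [← map_mul, ← map_mul, ← map_sub, Ne, map_eq_zero]
    exact g.hab
  have hvd := fun j => (den_ne_zero hab (hv j)).1
  have hed := fun j => (den_ne_zero hab (hv j)).2
  have hveq : ∀ j, v j = (algebraMap K L g.a0 - algebraMap K L g.b0 * e j ^ 2) /
      (algebraMap K L g.b1 * e j ^ 2 - algebraMap K L g.a1) := by
    intro j
    rw [eq_div_iff (hed j)]
    linear_combination hv j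
  have hKA : ∀ a : K, algebraMap K L a ∈ A := by
    intro a
    rw [IsScalarTower.algebraMap_apply K M L, IsScalarTower.algebraMap_apply M F₀ L]
    exact A.algebraMap_mem _
  have hMA : ∀ a : M, algebraMap M L a ∈ A := by
    intro a
    rw [IsScalarTower.algebraMap_apply M F₀ L]
    exact A.algebraMap_mem _
  let _ : Algebra K A := ((algebraMap K L).codRestrict A hKA).toAlgebra
  have hKAL : (algebraMap A L).comp (algebraMap K A) = algebraMap K L := rfl
  have htowA : IsScalarTower K A L := IsScalarTower.of_algebraMap_eq fun _ => rfl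
  have htrv : Transcendental A (v j₀) :=
    transcendental_paramo (algebraMap K A g.a1) (algebraMap K A g.a0) (algebraMap K A g.b1)
      (algebraMap K A g.b0) (by
        rw [← map_mul, ← map_mul, ← map_sub, Ne, map_eq_zero]
        exact g.hab) (e j₀) (v j₀) (hv j₀) htrA
  let _ : Algebra (RatFunc A) L := (ev (v j₀) htrv).toAlgebra
  have halgX : algebraMap (RatFunc A) L RatFunc.X = v j₀ := ev_X _ _
  have halgC : ∀ a : A, algebraMap (RatFunc A) L (algebraMap A (RatFunc A) a) = (a : L) :=
    fun a => ev_C _ _ a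
  have hpen : (pen (g.P.map (algebraMap K A)) (g.Q.map (algebraMap K A))).map
      (algebraMap (RatFunc A) L) = ∏ i, (X - C (y j₀ i)) := by
    rw [← hy j₀, pen, Polynomial.map_add, Polynomial.map_mul, map_C, halgX]
    have h5 : (algebraMap (RatFunc A) L).comp (algebraMap A (RatFunc A)) = algebraMap A L :=
      RingHom.ext halgC
    simp only [Polynomial.map_map]
    rw [← RingHom.comp_assoc, h5, hKAL]
  -- transcendence over `K` and the sign element
  have htrvK : Transcendental K (v j₀) := htrv.restrictScalars (algebraMap K A).injective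
  have hsg := sgo_cases g (ev (v j₀) htrvK) (ev_C (v j₀) htrvK) (y j₀) (hinj j₀) (e j₀) (v j₀)
    (ev_X (v j₀) htrvK)
    (hv j₀) (by
      rw [← hy j₀, pen, Polynomial.map_add, Polynomial.map_mul, map_C, ev_X,
        Polynomial.map_map, Polynomial.map_map]
      have h5 : (ev (v j₀) htrvK).comp (algebraMap K (RatFunc K)) = algebraMap K L :=
        RingHom.ext (ev_C (v j₀) htrvK)
      rw [h5])
  -- generation
  have hyalg : ∀ x ∈ Set.range (y j₀), IsAlgebraic (RatFunc A) x := by
    rintro _ ⟨i, rfl⟩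
    refine ⟨pen (g.P.map (algebraMap K A)) (g.Q.map (algebraMap K A)), ?_, ?_⟩
    · intro h0
      rw [h0, Polynomial.map_zero] at hpen
      have h6 : (∏ i, (X - C (y j₀ i))).Monic := monic_prod_of_monic _ _ fun i _ => monic_X_sub_C _
      rw [← hpen] at h6
      exact not_monic_zero h6
    · rw [← eval_map_algebraMap, hpen, eval_prod, Finset.prod_eq_zero (Finset.mem_univ i) (by simp)]
  have hAe : ∀ j, j ≠ j₀ → e j ∈ A := by
    intro j hj
    exact A.algebraMap_mem (⟨e j, IntermediateField.subset_adjoin _ _ ⟨j, hj, rfl⟩⟩ : F₀)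
  have hF₀e : ∀ j, j ≠ j₀ → e j ∈ F₀ := fun j hj =>
    IntermediateField.subset_adjoin _ _ ⟨j, hj, rfl⟩
  have hF₀K : ∀ a : K, algebraMap K L a ∈ F₀ := by
    intro a
    rw [IsScalarTower.algebraMap_apply K M L]
    exact F₀.algebraMap_mem _
  have hF₀v : ∀ j, j ≠ j₀ → v j ∈ F₀ := by
    intro j hj
    rw [hveq j]
    exact F₀.div_mem (F₀.sub_mem (hF₀K _) (F₀.mul_mem (hF₀K _) (pow_mem (hF₀e j hj) 2)))
      (F₀.sub_mem (F₀.mul_mem (hF₀K _) (pow_mem (hF₀e j hj) 2)) (hF₀K _))
  have hAy : ∀ j, j ≠ j₀ → ∀ i, y j i ∈ A := by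
    intro j hj i
    change y j i ∈ algebraicClosure F₀ L
    rw [mem_algebraicClosure_iff]
    let κ : K →+* F₀ := (algebraMap K L).codRestrict F₀ hF₀K
    have hκ : (algebraMap F₀ L).comp κ = algebraMap K L := rfl
    have hmon : (g.P.map κ + C (⟨v j, hF₀v j hj⟩ : F₀) * g.Q.map κ).Monic := by
      refine (g.monic.map κ).add_of_left ?_
      refine (degree_mul_le _ _).trans_lt ?_
      refine (add_le_add degree_C_le degree_map_le).trans_lt ?_
      rw [zero_add]
      rw [degree_eq_natDegree (g.monic.map κ).ne_zero, g.monic.natDegree_map, g.deg]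
      exact g.degQ
    refine ⟨g.P.map κ + C (⟨v j, hF₀v j hj⟩ : F₀) * g.Q.map κ, hmon.ne_zero, ?_⟩
    rw [← eval_map_algebraMap, Polynomial.map_add, Polynomial.map_mul, map_C,
      Polynomial.map_map, Polynomial.map_map, hκ]
    change eval (y j i) (g.P.map (algebraMap K L) + C (v j) * g.Q.map (algebraMap K L)) = 0
    rw [hy j, eval_prod, Finset.prod_eq_zero (Finset.mem_univ i) (by simp)]
  have hgenA : Algebra.adjoin (RatFunc A) (Set.range (y j₀)) = ⊤ := by
    rw [← IntermediateField.adjoin_eq_top_iff_of_isAlgebraic hyalg]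
    set T := IntermediateField.adjoin (RatFunc A) (Set.range (y j₀)) with hT
    have hTA : ∀ a : A, (a : L) ∈ T := by
      intro a
      rw [← halgC a]
      exact T.algebraMap_mem _
    have hTv : v j₀ ∈ T := by
      rw [← halgX]
      exact T.algebraMap_mem _
    have hTy : ∀ i, y j₀ i ∈ T := fun i =>
      IntermediateField.subset_adjoin _ _ (Set.mem_range_self i)
    have hTe : e j₀ ∈ T := by
      have h1 : MP7f.vV (y j₀) * ev (v j₀) htrvK g.r ∈ T.toSubfield :=
        T.toSubfield.mul_mem (vV_mem T.toSubfield (y j₀) hTy)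
          (ev_mem (v j₀) htrvK T.toSubfield (fun a => hTA ⟨_, hKA a⟩) hTv g.r)
      rcases hsg with h | h
      · rw [← h]
        exact h1
      · have h2 : e j₀ = -(MP7f.vV (y j₀) * ev (v j₀) htrvK g.r) := by
          rw [h, neg_neg]
        rw [h2]
        exact T.toSubfield.neg_mem h1
    let T' : IntermediateField M L := T.toSubfield.toIntermediateField fun m => hTA ⟨_, hMA m⟩
    have hT' : (⊤ : IntermediateField M L) ≤ T' := by
      rw [← hgen, IntermediateField.adjoin_le_iff]
      rintro x (⟨j, rfl⟩ | hx)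
      · by_cases hj : j = j₀
        · rw [hj]
          exact hTe
        · exact hTA ⟨_, hAe j hj⟩
      · obtain ⟨j, i, rfl⟩ := Set.mem_iUnion.mp hx
        by_cases hj : j = j₀
        · rw [hj]
          exact hTy i
        · exact hTA ⟨_, hAy j hj i⟩
    rw [eq_top_iff]
    intro x _
    exact hT' (IntermediateField.mem_top)
  obtain ⟨τ, hτ⟩ := g.gal A L (y j₀) hpen hgenA σ
  have hτA : ∀ a : L, a ∈ A → τ a = a := by
    intro a ha
    have h1 := τ.commutes (algebraMap A (RatFunc A) ⟨a, ha⟩)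
    rwa [halgC] at h1
  have hτv : τ (v j₀) = v j₀ := by
    rw [← halgX]
    exact τ.commutes _
  have hτw : τ (ev (v j₀) htrvK g.r) = ev (v j₀) htrvK g.r := by
    have h1 : ((τ : L →+* L).comp (ev (v j₀) htrvK)) = ev (v j₀) htrvK := by
      apply ringHom_ext_ratFunc
      · intro a
        rw [RingHom.comp_apply, ev_C]
        exact hτA _ (hKA a)
      · rw [RingHom.comp_apply, ev_X]
        exact hτv
    exact DFunLike.congr_fun h1 g.r
  have hτsg : τ (MP7f.vV (y j₀)) = MP7f.vV (y j₀) := by
    have h1 := MP7f.map_vV (τ : L →+* L) (y j₀)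
    have h2 : ((τ : L →+* L) ∘ y j₀) = y j₀ ∘ σ := funext fun i => hτ i
    rw [h2, vV_comp_even _ _ hσ] at h1
    exact h1
  have hτe : τ (e j₀) = e j₀ := by
    rcases hsg with h | h
    · rw [← h, map_mul, hτsg, hτw]
    · have h2 : e j₀ = -(MP7f.vV (y j₀) * ev (v j₀) htrvK g.r) := by
        rw [h, neg_neg]
      rw [h2, map_neg, map_mul, hτsg, hτw]
  refine ⟨AlgEquiv.ofRingEquiv (f := (τ : L ≃+* L)) fun m => hτA _ (hMA m), ?_, ?_, ?_⟩
  · intro j
    change τ (e j) = e j
    by_cases hj : j = j₀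
    · rw [hj]
      exact hτe
    · exact hτA _ (A.algebraMap_mem (⟨e j, IntermediateField.subset_adjoin _ _ ⟨j, hj, rfl⟩⟩ : F₀))
  · intro j hj i
    change τ (y j i) = y j i
    exact hτA _ (hAy j hj i)
  · intro i
    exact hτ i

end main

end MP7fA
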