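import Pool.Agent.Lib.MP_7f581e_ntE.Hom
import Pool.Agent.Lib.MP_7f581e_ntA.Assemble
import Pool.Agent.Lib.MP_7f581e_ntA.Core
import Pool.Agent.Lib.MP_7f581e_ntA.MoveO

/-!
Realisation of an extension with kernel `A_n ^ k` in characteristic different from two, over the
field of invariants of the twisted action.
-/

set_option autoImplicit false

universe u

namespace MP7fA

open Polynomial Equiv

section core

variable {K M F N Ω : Type u} [Field K] [Field M] [Field F] [Field N] [Field Ω] [Algebra K M]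
  [Algebra F N] [Algebra M N] [Algebra N Ω] [Algebra F Ω] [IsScalarTower F N Ω] [Algebra M Ω]
  [IsScalarTower M N Ω] [Algebra K Ω] [IsScalarTower K M Ω] [FiniteDimensional F N]
  [IsGalois F N] {n k : ℕ}

/-- Roots of a member of the pencil with normalised sign element. -/
theorem exists_rootso [IsSepClosed Ω] (hn : 2 ≤ n) (g : GAo n K) (E v : Ω)
    (hrel : E ^ 2 * (algebraMap K Ω g.b1 * v + algebraMap K Ω g.b0) =
      algebraMap K Ω g.a1 * v + algebraMap K Ω g.a0)
    (htr : Transcendental K v) :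
    ∃ y : Fin n → Ω, Function.Injective y ∧
      g.P.map (algebraMap K Ω) + C v * g.Q.map (algebraMap K Ω) = ∏ i, (X - C (y i)) ∧
      MP7f.vV y * ev v htr g.r = E := by
  have hpen : (pen g.P g.Q).map (ev v htr) =
      g.P.map (algebraMap K Ω) + C v * g.Q.map (algebraMap K Ω) := by
    rw [pen, Polynomial.map_add, Polynomial.map_mul, map_C, ev_X, Polynomial.map_map,
      Polynomial.map_map]
    have h5 : (ev v htr).comp (algebraMap K (RatFunc K)) = algebraMap K Ω :=
      RingHom.ext (ev_C v htr)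
    rw [h5]
  set f := g.P.map (algebraMap K Ω) + C v * g.Q.map (algebraMap K Ω) with hf
  have hdegQ : (C v * g.Q.map (algebraMap K Ω)).degree < (g.P.map (algebraMap K Ω)).degree := by
    refine (degree_mul_le _ _).trans_lt ?_
    refine (add_le_add degree_C_le degree_map_le).trans_lt ?_
    rw [zero_add, degree_eq_natDegree (g.monic.map _).ne_zero, g.monic.natDegree_map, g.deg]
    exact g.degQ
  have hmon : f.Monic := (g.monic.map _).add_of_left hdegQ
  have hdeg : f.natDegree = n := by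
    rw [hf, natDegree_add_eq_left_of_degree_lt hdegQ, g.monic.natDegree_map, g.deg]
  have hsep : f.Separable := by
    rw [← hpen]
    exact g.sep.map
  obtain ⟨y', hy'⟩ := HilbertFq.exists_enum f (IsSepClosed.splits_of_separable f hsep)
  obtain ⟨y, hy⟩ : ∃ y : Fin n → Ω, f = ∏ i, (X - C (y i)) := by
    rw [hmon.leadingCoeff, C_1, one_mul] at hy'
    rw [← hdeg]
    exact ⟨y', hy'⟩
  have hinj : Function.Injective y := by
    rw [← separable_prod_X_sub_C_iff, ← hy]
    exact hsep
  rcases sgo_cases g (ev v htr) (ev_C v htr) y hinj E v (ev_X v htr) hrel (by rw [hpen, hy])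
    with h | h
  · exact ⟨y, hinj, hy, h⟩
  · obtain ⟨m, rfl⟩ : ∃ m, n = m + 2 := ⟨n - 2, by omega⟩
    have hinj' : Function.Injective (y ∘ swap (0 : Fin (m + 2)) 1) :=
      hinj.comp (swap (0 : Fin (m + 2)) 1).injective
    have hy2 : f = ∏ i, (X - C ((y ∘ swap (0 : Fin (m + 2)) 1) i)) := by
      rw [hy]
      exact (Equiv.prod_comp (swap (0 : Fin (m + 2)) 1) fun i => (X - C (y i))).symm
    refine ⟨y ∘ swap (0 : Fin (m + 2)) 1, hinj', hy2, ?_⟩
    rw [vV_comp_odd y _ (Perm.sign_swap (by simp)), neg_mul, h, neg_neg]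

end core

section core

variable {K M F N : Type u} [Field K] [Field M] [Field F] [Field N] [Algebra K M]
  [Algebra F N] [Algebra M N] [FiniteDimensional F N] [IsGalois F N] {n k : ℕ}

theorem core_auxo [Algebra K F] (Ω : Type u) [Field Ω] [Algebra N Ω] [Algebra F Ω] [IsScalarTower F N Ω]
    [Algebra M Ω] [IsScalarTower M N Ω] [Algebra K Ω] [IsScalarTower K M Ω]
    [IsSepClosed Ω] [IsGalois F Ω] (hn : 2 ≤ n) (g : GAo n K) (ι : (M ≃ₐ[K] M) ≃* (N ≃ₐ[F] N))
    (act : (M ≃ₐ[K] M) →* Perm (Fin k)) (ε : (M ≃ₐ[K] M) → Fin k → ℤˣ) (e : Fin k → N)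
    (hKFN : ∀ a : K, algebraMap M N (algebraMap K M a) = algebraMap F N (algebraMap K F a))
    (hι : ∀ g m, ι g (algebraMap M N m) = algebraMap M N (g m))
    (hιe : ∀ g j, ι g (e j) = (((ε g j : ℤˣ) : ℤ) : N) * e (act g j))
    (hind : AlgebraicIndependent M e)
    (hgenN : IntermediateField.adjoin M (Set.range e) = ⊤)
    {E : Type} [Group E] (cls : E →* (M ≃ₐ[K] M)) (T : E → Fin k → Perm (Fin n))
    (hT1 : ∀ e e' j, T (e * e') j = T e (act (cls e') j) * T e' j)
    (hT2 : ∀ e j, Perm.sign (T e j) = ε (cls e) j)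
    (hT3 : ∀ (g : M ≃ₐ[K] M) (τ : Fin k → Perm (Fin n)), (∀ j, Perm.sign (τ j) = ε g j) →
      ∃! e : E, cls e = g ∧ T e = τ) :
    ∃ (L : Type u) (_ : Field L) (_ : Algebra F L) (_ : FiniteDimensional F L)
      (_ : IsGalois F L) (e' : (L ≃ₐ[F] L) ≃* E) (j : M →+* L),
      (∀ a : K, j (algebraMap K M a) = algebraMap F L (algebraMap K F a)) ∧
      ∀ (σ : L ≃ₐ[F] L) (x : M), σ (j x) = j (cls (e' σ) x) := by
  classical
  have two0 : (2 : Ω) ≠ 0 := by
    have h1 : (2 : Ω) = algebraMap K Ω 2 := by rw [map_ofNat]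
    rw [h1, Ne, map_eq_zero]
    exact g.h2
  obtain ⟨EE, hEE⟩ : ∃ EE : Fin k → Ω, ∀ j, EE j = algebraMap N Ω (e j) := ⟨_, fun _ => rfl⟩
  have hEE' : EE = algebraMap N Ω ∘ e := funext hEE
  have hindΩ : AlgebraicIndependent M EE := by
    rw [hEE']
    exact hind.map' (f := IsScalarTower.toAlgHom M N Ω) (algebraMap N Ω).injective
  have htrE : ∀ j, Transcendental K (EE j) := fun j =>
    (hindΩ.transcendental j).restrictScalars (algebraMap K M).injective
  have hab : algebraMap K Ω g.a1 * algebraMap K Ω g.b0 -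
      algebraMap K Ω g.a0 * algebraMap K Ω g.b1 ≠ 0 := by
    rw [← map_mul, ← map_mul, ← map_sub, Ne, map_eq_zero]
    exact g.hab
  have hden : ∀ j, algebraMap K Ω g.b1 * EE j ^ 2 - algebraMap K Ω g.a1 ≠ 0 := by
    intro j h0
    apply htrE j
    refine ⟨C g.b1 * X ^ 2 - C g.a1, ?_, by simpa using h0⟩
    intro h1
    have h2 := congrArg (fun q : K[X] => q.coeff 2) h1
    have h3 := congrArg (fun q : K[X] => q.coeff 0) h1
    simp only [coeff_sub, coeff_C_mul, coeff_X_pow, coeff_C, coeff_zero] at h2 h3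
    norm_num at h2 h3
    apply g.hab
    rw [h2, h3]
    ring
  obtain ⟨v, hv⟩ : ∃ v : Fin k → Ω, ∀ j, v j =
      (algebraMap K Ω g.a0 - algebraMap K Ω g.b0 * EE j ^ 2) /
      (algebraMap K Ω g.b1 * EE j ^ 2 - algebraMap K Ω g.a1) := ⟨_, fun _ => rfl⟩
  have hrel : ∀ j, EE j ^ 2 * (algebraMap K Ω g.b1 * v j + algebraMap K Ω g.b0) =
      algebraMap K Ω g.a1 * v j + algebraMap K Ω g.a0 := by
    intro j
    have h1 : v j * (algebraMap K Ω g.b1 * EE j ^ 2 - algebraMap K Ω g.a1) =
        algebraMap K Ω g.a0 - algebraMap K Ω g.b0 * EE j ^ 2 := by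
      rw [hv j, div_mul_cancel₀ _ (hden j)]
    linear_combination h1
  have htr : ∀ j, Transcendental K (v j) := fun j =>
    transcendental_paramo g.a1 g.a0 g.b1 g.b0 g.hab (EE j) (v j) (hrel j) (htrE j)
  choose y hinj hprod hsg using fun j => exists_rootso hn g (EE j) (v j) (hrel j) (htr j)
  -- the projection
  let π : (Ω ≃ₐ[F] Ω) →* (M ≃ₐ[K] M) :=
    ι.symm.toMonoidHom.comp (AlgEquiv.restrictNormalHom (F := F) (K₁ := Ω) N)
  have hπN : ∀ (γ : Ω ≃ₐ[F] Ω) (x : N), γ (algebraMap N Ω x) = algebraMap N Ω (ι (π γ) x) := by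
    intro γ x
    have h1 : ι (π γ) = AlgEquiv.restrictNormalHom (F := F) (K₁ := Ω) N γ :=
      ι.apply_symm_apply _
    rw [h1]
    exact (AlgEquiv.restrictNormal_commutes γ N x).symm
  have hπM : ∀ (γ : Ω ≃ₐ[F] Ω) (m : M), γ (algebraMap M Ω m) = algebraMap M Ω (π γ m) := by
    intro γ m
    rw [IsScalarTower.algebraMap_apply M N Ω, hπN, hι, ← IsScalarTower.algebraMap_apply]
  have hπK : ∀ (γ : Ω ≃ₐ[F] Ω) (a : K), γ (algebraMap K Ω a) = algebraMap K Ω a := by
    intro γ a
    rw [IsScalarTower.algebraMap_apply K M Ω, hπM, AlgEquiv.commutes]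
  have hπE : ∀ (γ : Ω ≃ₐ[F] Ω) (j : Fin k), γ (EE j) =
      (((ε (π γ) j : ℤˣ) : ℤ) : Ω) * EE (act (π γ) j) := by
    intro γ j
    rw [hEE, hπN, hιe, map_mul, map_intCast, hEE]
  have hπv : ∀ (γ : Ω ≃ₐ[F] Ω) (j : Fin k), γ (v j) = v (act (π γ) j) := by
    intro γ j
    have h1 : (γ (EE j)) ^ 2 = EE (act (π γ) j) ^ 2 := by
      rw [hπE]
      rcases Int.units_eq_one_or (ε (π γ) j) with h | h <;> rw [h] <;> simp
    rw [hv j, hv (act (π γ) j), map_div₀, map_sub, map_sub, map_mul, map_mul, map_pow, hπK, hπK,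
      hπK, hπK, h1]
  have hπev : ∀ (γ : Ω ≃ₐ[F] Ω) (j : Fin k) (r : RatFunc K),
      γ (ev (v j) (htr j) r) = ev (v (act (π γ) j)) (htr _) r := by
    intro γ j r
    have h1 : ((γ : Ω →+* Ω).comp (ev (v j) (htr j))) = ev (v (act (π γ) j)) (htr _) := by
      apply ringHom_ext_ratFunc
      · intro a
        rw [RingHom.comp_apply, ev_C, ev_C]
        exact hπK γ a
      · rw [RingHom.comp_apply, ev_X, ev_X]
        exact hπv γ j
    exact DFunLike.congr_fun h1 r
  have hπsurj : Function.Surjective π :=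
    ι.symm.surjective.comp (AlgEquiv.restrictNormalHom_surjective (F := F) (K₁ := N) Ω)
  have hπ1 : ∀ γ : Ω ≃ₐ[F] Ω, π γ = 1 ↔ ∀ x : N, γ (algebraMap N Ω x) = algebraMap N Ω x := by
    intro γ
    constructor
    · intro h x
      rw [hπN, h, map_one]
      rfl
    · intro h
      apply ι.injective
      rw [map_one]
      ext x
      apply (algebraMap N Ω).injective
      rw [← hπN, h]
      rfl
  have hfdN : FiniteDimensional F (IsScalarTower.toAlgHom F N Ω).fieldRange :=
    (AlgEquiv.ofInjectiveField (IsScalarTower.toAlgHom F N Ω)).toLinearEquiv.finiteDimensional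
  suffices hsuff : ∃ (Φ : (Ω ≃ₐ[F] Ω) →* E) (L : IntermediateField F Ω), Function.Surjective Φ ∧
      FiniteDimensional F L ∧ Φ.ker = L.fixingSubgroup ∧ ∀ γ, cls (Φ γ) = π γ by
    obtain ⟨Φ, L, h1, h2, h3, h4⟩ := hsuff
    refine MP7fE.sol_of_hom (algebraMap M Ω) (fun a => ?_) cls Φ h1 L h3 (fun γ m => ?_)
    · rw [IsScalarTower.algebraMap_apply M N Ω, hKFN, ← IsScalarTower.algebraMap_apply F N Ω]
    · rw [hπM, h4]
  refine assembly π hπsurj (IsScalarTower.toAlgHom F N Ω).fieldRange ?_ act ε y hinj ?_ ?_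
    cls T hT1 hT2 hT3
  · ext γ
    rw [MonoidHom.mem_ker, hπ1, IntermediateField.mem_fixingSubgroup_iff]
    constructor
    · rintro h _ ⟨x, rfl⟩
      exact h x
    · intro h x
      exact h _ ⟨x, rfl⟩
  · -- permutations
    intro γ j
    set j' := act (π γ) j with hj'
    have hroot : ∀ i, ∃ i', γ (y j i) = y j' i' := by
      intro i
      have h1 : (∏ i, (X - C (y j i))).map (γ : Ω →+* Ω) = ∏ i, (X - C (y j' i)) := by
        rw [← hprod j, ← hprod j', Polynomial.map_add, Polynomial.map_mul, map_C,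
          Polynomial.map_map, Polynomial.map_map]
        have h2 : (γ : Ω →+* Ω).comp (algebraMap K Ω) = algebraMap K Ω :=
          RingHom.ext fun a => hπK γ a
        rw [h2]
        congr 3
        exact hπv γ j
      have h3 : eval (γ (y j i)) (∏ i, (X - C (y j' i))) = 0 := by
        rw [← h1, Polynomial.map_prod, eval_prod]
        apply Finset.prod_eq_zero (Finset.mem_univ i)
        simp
      rw [eval_prod, Finset.prod_eq_zero_iff] at h3
      obtain ⟨i', -, hi'⟩ := h3
      refine ⟨i', ?_⟩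
      rw [eval_sub, eval_X, eval_C] at hi'
      exact sub_eq_zero.mp hi'
    choose p hp using hroot
    have hpinj : Function.Injective p := by
      intro a b hab
      apply hinj j
      apply γ.injective
      rw [hp, hp, hab]
    let P : Perm (Fin n) := Equiv.ofBijective p (Finite.injective_iff_bijective.mp hpinj)
    have hP : ∀ i, γ (y j i) = y j' (P i) := hp
    refine ⟨P, hP, ?_⟩
    have hcomp : ((γ : Ω →+* Ω) ∘ y j) = y j' ∘ P := funext hP
    have h1 : γ (MP7f.vV (y j)) = MP7f.vV (y j' ∘ P) := by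
      have h2 := MP7f.map_vV (γ : Ω →+* Ω) (y j)
      rw [hcomp] at h2
      exact h2
    have h3 : γ (EE j) = MP7f.vV (y j' ∘ P) * ev (v j') (htr j') g.r := by
      rw [← hsg j, map_mul, h1, hπev]
    rw [hπE, MP7f.vV_comp, mul_assoc, hsg j'] at h3
    have hEne : EE j' ≠ 0 := by
      intro h0
      apply hindΩ.transcendental j'
      rw [h0]
      exact isAlgebraic_zero
    have h4 := mul_right_cancel₀ hEne h3
    rcases Int.units_eq_one_or (ε (π γ) j) with h5 | h5 <;>
    rcases MP7f.sign_cases P with h6 | h6 <;> rw [h5, h6] at h4 ⊢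
    · exfalso
      push_cast at h4
      apply two0
      linear_combination h4
    · exfalso
      push_cast at h4
      apply two0
      linear_combination -h4
  · -- moves
    intro j₀ σ hσ
    let S : Set Ω := Set.range EE ∪ ⋃ j, Set.range (y j)
    let L : IntermediateField M Ω := IntermediateField.adjoin M S
    have heL : ∀ j, EE j ∈ L := fun j =>
      IntermediateField.subset_adjoin _ _ (Or.inl ⟨j, rfl⟩)
    have hyL : ∀ j i, y j i ∈ L := fun j i =>
      IntermediateField.subset_adjoin _ _ (Or.inr (Set.mem_iUnion.mpr ⟨j, i, rfl⟩))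
    have hKL : ∀ a : K, algebraMap K Ω a ∈ L := by
      intro a
      rw [IsScalarTower.algebraMap_apply K M Ω]
      exact L.algebraMap_mem _
    have hvL : ∀ j, v j ∈ L := by
      intro j
      rw [hv j]
      exact L.div_mem (L.sub_mem (hKL _) (L.mul_mem (hKL _) (pow_mem (heL j) 2)))
        (L.sub_mem (L.mul_mem (hKL _) (pow_mem (heL j) 2)) (hKL _))
    let _ : Algebra K L := ((algebraMap K Ω).codRestrict L hKL).toAlgebra
    have htowL : IsScalarTower K M L := IsScalarTower.of_algebraMap_eq fun a => by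
      apply Subtype.ext
      exact IsScalarTower.algebraMap_apply K M Ω a
    have hKLc : (algebraMap L Ω).comp (algebraMap K L) = algebraMap K Ω := rfl
    obtain ⟨τ, hτ1, hτ2, hτ3⟩ := exists_moveo g (fun j => (⟨EE j, heL j⟩ : L))
      (AlgebraicIndependent.of_comp (f := L.val) hindΩ)
      (fun j i => (⟨y j i, hyL j i⟩ : L)) (fun j i i' h => hinj j (congrArg Subtype.val h))
      (fun j => (⟨v j, hvL j⟩ : L)) (fun j => Subtype.ext (hrel j))
      (fun j => by
        apply Polynomial.map_injective _ (algebraMap L Ω).injective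
        rw [Polynomial.map_add, Polynomial.map_mul, map_C, Polynomial.map_map,
          Polynomial.map_map, hKLc, Polynomial.map_prod]
        simp only [Polynomial.map_sub, map_X, map_C]
        exact hprod j)
      (by
        apply IntermediateField.map_injective L.val
        rw [IntermediateField.adjoin_map, ← AlgHom.fieldRange_eq_map,
          IntermediateField.fieldRange_val, Set.image_union, ← Set.range_comp, Set.image_iUnion]
        change IntermediateField.adjoin M (Set.range EE ∪ _) = IntermediateField.adjoin M S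
        congr 2
        apply Set.iUnion_congr
        intro j
        rw [← Set.range_comp]
        rfl) j₀ σ hσ
    obtain ⟨τ', h1, h2⟩ := exists_lift_move (F := F) e hgenN L
      (fun j => by rw [← hEE]; exact heL j) τ (fun j => by
        have h3 := hτ1 j
        have h4 : (⟨algebraMap N Ω (e j), by rw [← hEE]; exact heL j⟩ : L) = ⟨EE j, heL j⟩ :=
          Subtype.ext (hEE j).symm
        rw [h4]
        exact h3)
    refine ⟨τ', (hπ1 τ').mpr h1, ?_, ?_⟩
    · intro j hj i
      rw [h2 ⟨y j i, hyL j i⟩, hτ2 j hj i]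
    · intro i
      rw [h2 ⟨y j₀ i, hyL j₀ i⟩, hτ3 i]

/-- The main step in characteristic different from two. -/
theorem coreo [Algebra K F] (hn : 2 ≤ n) (g : GAo n K) (ι : (M ≃ₐ[K] M) ≃* (N ≃ₐ[F] N))
    (act : (M ≃ₐ[K] M) →* Perm (Fin k)) (ε : (M ≃ₐ[K] M) → Fin k → ℤˣ) (e : Fin k → N)
    (hKFN : ∀ a : K, algebraMap M N (algebraMap K M a) = algebraMap F N (algebraMap K F a))
    (hι : ∀ g m, ι g (algebraMap M N m) = algebraMap M N (g m))
    (hιe : ∀ g j, ι g (e j) = (((ε g j : ℤˣ) : ℤ) : N) * e (act g j))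
    (hind : AlgebraicIndependent M e)
    (hgenN : IntermediateField.adjoin M (Set.range e) = ⊤)
    {E : Type} [Group E] (cls : E →* (M ≃ₐ[K] M)) (T : E → Fin k → Perm (Fin n))
    (hT1 : ∀ e e' j, T (e * e') j = T e (act (cls e') j) * T e' j)
    (hT2 : ∀ e j, Perm.sign (T e j) = ε (cls e) j)
    (hT3 : ∀ (g : M ≃ₐ[K] M) (τ : Fin k → Perm (Fin n)), (∀ j, Perm.sign (τ j) = ε g j) →
      ∃! e : E, cls e = g ∧ T e = τ) :
    ∃ (L : Type u) (_ : Field L) (_ : Algebra F L) (_ : FiniteDimensional F L)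
      (_ : IsGalois F L) (e' : (L ≃ₐ[F] L) ≃* E) (j : M →+* L),
      (∀ a : K, j (algebraMap K M a) = algebraMap F L (algebraMap K F a)) ∧
      ∀ (σ : L ≃ₐ[F] L) (x : M), σ (j x) = j (cls (e' σ) x) := by
  let Ω := SeparableClosure N
  let _ : Algebra F Ω := ((algebraMap N Ω).comp (algebraMap F N)).toAlgebra
  have h1 : IsScalarTower F N Ω := IsScalarTower.of_algebraMap_eq fun _ => rfl
  let _ : Algebra M Ω := ((algebraMap N Ω).comp (algebraMap M N)).toAlgebra
  have h2 : IsScalarTower M N Ω := IsScalarTower.of_algebraMap_eq fun _ => rfl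
  let _ : Algebra K Ω := ((algebraMap M Ω).comp (algebraMap K M)).toAlgebra
  have h3 : IsScalarTower K M Ω := IsScalarTower.of_algebraMap_eq fun _ => rfl
  have h5 : Algebra.IsSeparable F Ω := Algebra.IsSeparable.trans F N Ω
  have h6 : IsSepClosure F Ω := ⟨inferInstance, h5⟩
  have h7 : IsGalois F Ω := inferInstance
  exact core_auxo Ω hn g ι act ε e hKFN hι hιe hind hgenN cls T hT1 hT2 hT3

end core

end MP7fA
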