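import Pool.Agent.Lib.MP_7f581e_ntA.Twist

set_option autoImplicit false
set_option linter.unusedSimpArgs false
set_option linter.unusedSectionVars false

/-!
# Twisted descent, multiplicative version (helper11)

`M / K` finite Galois, `act : Gal(M/K) → Perm (Fin k)` a permutation action and `ε` a cocycle with
values in `{±1}^k`. Then there is a Galois extension `N` of `K(t_1, ..., t_k)` containing `M`, with
the same group, and elements `e_j` which are algebraically independent over `M`, generate `N` over
`M` and satisfy `g e_j = ε_g(j) e_{g j}`.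
-/

namespace Pool.Agent.Lib.MP_7f581e_ntA

universe u

open MvPolynomial

attribute [local instance] MvPolynomial.algebraMvPolynomial

section lin

variable {K M : Type u} [Field K] [Field M] [Algebra K M] [FiniteDimensional K M] [IsGalois K M]
  {k : ℕ} (act : (M ≃ₐ[K] M) →* Equiv.Perm (Fin k)) (ε : (M ≃ₐ[K] M) → Fin k → ℤˣ)

/-- the sign as an element of the field -/
def sgM (M : Type u) [Field M] (u : ℤˣ) : M := ((u : ℤ) : M)

theorem sgM_mul (u v : ℤˣ) : sgM M (u * v) = sgM M u * sgM M v := by
  simp [sgM]

theorem sgM_ne_zero (u : ℤˣ) : sgM M u ≠ 0 := by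
  rcases Int.units_eq_one_or u with rfl | rfl <;> simp [sgM]

theorem sgM_sq (u : ℤˣ) : sgM M u * sgM M u = 1 := by
  rcases Int.units_eq_one_or u with rfl | rfl <;> simp [sgM]

theorem map_sgM {N : Type u} [Field N] (f : M →+* N) (u : ℤˣ) : f (sgM M u) = sgM N u := by
  simp [sgM]

open Classical in
/-- the equivariant maps -/
noncomputable def bvecM (c : M) (i : Fin k) : Fin k → M := fun j =>
  ∑ h : M ≃ₐ[K] M, if act h i = j then sgM M (ε h i) * h c else 0

theorem bvecM_equiv (hε : ∀ g h j, ε (g * h) j = ε g (act h j) * ε h j)
    (c : M) (i j : Fin k) (g : M ≃ₐ[K] M) :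
    g (bvecM act ε c i j) = sgM M (ε g j) * bvecM act ε c i (act g j) := by
  classical
  unfold bvecM
  rw [map_sum, Finset.mul_sum]
  refine Fintype.sum_equiv (Equiv.mulLeft g) _ _ fun h => ?_
  simp only [Equiv.coe_mulLeft, map_mul, Equiv.Perm.mul_apply, AlgEquiv.mul_apply,
    EmbeddingLike.apply_eq_iff_eq]
  by_cases hj : act h i = j
  · rw [if_pos hj, if_pos hj, map_mul, hε, hj, sgM_mul]
    have h1 : g (sgM M (ε h i)) = sgM M (ε h i) := map_sgM (g : M →+* M) _
    rw [h1, ← mul_assoc, ← mul_assoc, sgM_sq, one_mul]
  · rw [if_neg hj, if_neg hj, map_zero, mul_zero]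

theorem span_bvecM :
    Submodule.span M (Set.range fun ci : M × Fin k => bvecM act ε ci.1 ci.2) = ⊤ := by
  classical
  by_contra hne
  obtain ⟨f, hf0, hf⟩ := Submodule.exists_le_ker_of_lt_top _ (lt_top_iff_ne_top.2 hne)
  apply hf0
  have hfi : ∀ i, f (Pi.single i 1) = 0 := by
    intro i
    -- the functional composed with the vectors
    have key : ∀ c : M, ∑ h : M ≃ₐ[K] M,
        (f (Pi.single (act h i) 1) * sgM M (ε h i)) * h c = 0 := by
      intro c
      have h1 : f (bvecM act ε c i) = 0 := hf (Submodule.subset_span ⟨(c, i), rfl⟩)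
      have h2 : bvecM act ε c i =
          ∑ h : M ≃ₐ[K] M, (sgM M (ε h i) * h c) • (Pi.single (act h i) (1 : M)) := by
        funext j
        rw [Finset.sum_apply]
        unfold bvecM
        refine Finset.sum_congr rfl fun h _ => ?_
        rw [Pi.smul_apply, smul_eq_mul, Pi.single_apply]
        by_cases hj : act h i = j
        · simp [hj]
        · have : ¬ j = act h i := fun e => hj e.symm
          simp [hj, this]
      rw [h2, map_sum] at h1
      rw [← h1]
      refine Finset.sum_congr rfl fun h _ => ?_
      rw [map_smul, smul_eq_mul]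
      ring
    -- Dedekind
    let T : (M ≃ₐ[K] M) → (M →* M) := fun h => ((h : M →+* M) : M →* M)
    have hT : Function.Injective T := by
      intro a b hab
      ext x
      exact DFunLike.congr_fun hab x
    have hli : LinearIndependent M (fun h : M ≃ₐ[K] M => (T h : M → M)) :=
      (linearIndependent_monoidHom M M).comp T hT
    rw [Fintype.linearIndependent_iff] at hli
    have := hli (fun h => f (Pi.single (act h i) 1) * sgM M (ε h i)) (by
      funext c
      rw [Finset.sum_apply]
      exact key c) 1
    have h3 := (mul_eq_zero.1 this).resolve_right (sgM_ne_zero _)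
    simpa using h3
  refine LinearMap.pi_ext' fun i => ?_
  ext
  simpa using hfi i

/-- an equivariant basis -/
theorem exists_basisM (hε : ∀ g h j, ε (g * h) j = ε g (act h j) * ε h j) :
    ∃ β : Module.Basis (Fin k) M (Fin k → M),
    ∀ i j (g : M ≃ₐ[K] M), g (β i j) = sgM M (ε g j) * β i (act g j) := by
  classical
  set s : Set (Fin k → M) := Set.range fun ci : M × Fin k => bvecM act ε ci.1 ci.2
  have hs : ⊤ ≤ Submodule.span M s := (span_bvecM act ε).ge
  let b := Module.Basis.ofSpan hs
  have hb : ∀ x, b x ∈ s := fun x => Module.Basis.ofSpan_subset hs ⟨x, rfl⟩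
  let e := b.indexEquiv (Pi.basisFun M (Fin k))
  refine ⟨b.reindex e, fun i j g => ?_⟩
  rw [Module.Basis.reindex_apply]
  obtain ⟨⟨c, l⟩, hcl⟩ := hb (e.symm i)
  rw [← hcl]
  exact bvecM_equiv act ε hε c l j g

end lin

section main

attribute [local instance] FractionRing.liftAlgebra
attribute [local instance 3000] actB
attribute [local instance 3000] actS

theorem exists_twisted_field_mul {K M : Type u} [Field K] [Field M] [Algebra K M]
    [FiniteDimensional K M] [IsGalois K M] {k : ℕ}
    (act : (M ≃ₐ[K] M) →* Equiv.Perm (Fin k)) (ε : (M ≃ₐ[K] M) → Fin k → ℤˣ)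
    (hε : ∀ g h j, ε (g * h) j = ε g (act h j) * ε h j) :
    ∃ (N : Type u) (_ : Field N) (_ : Algebra (FractionRing (MvPolynomial (Fin k) K)) N)
      (_ : Algebra M N)
      (ι : (M ≃ₐ[K] M) ≃* (N ≃ₐ[FractionRing (MvPolynomial (Fin k) K)] N)) (e : Fin k → N),
      FiniteDimensional (FractionRing (MvPolynomial (Fin k) K)) N ∧
      IsGalois (FractionRing (MvPolynomial (Fin k) K)) N ∧
      (∀ g m, ι g (algebraMap M N m) = algebraMap M N (g m)) ∧
      (∀ g j, ι g (e j) = ((ε g j : ℤ) : N) * e (act g j)) ∧
      AlgebraicIndependent M e ∧ IntermediateField.adjoin M (Set.range e) = ⊤ ∧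
      ∀ a : K, algebraMap M N (algebraMap K M a) =
        algebraMap (FractionRing (MvPolynomial (Fin k) K)) N
          (algebraMap K (FractionRing (MvPolynomial (Fin k) K)) a) := by
  classical
  obtain ⟨β, hβ⟩ := exists_basisM act ε hε
  obtain ⟨γ, hγ1, hγ2⟩ := exists_inverse β
  let A := MvPolynomial (Fin k) K
  let B := MvPolynomial (Fin k) M
  let G := M ≃ₐ[K] M
  have hGal : IsGaloisGroup G A B := isGaloisGroup
  have : FaithfulSMul A B := by
    rw [faithfulSMul_iff_algebraMap_injective]
    exact MvPolynomial.map_injective _ (algebraMap K M).injective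
  have : FaithfulSMul A (FractionRing B) := inferInstance
  let actN : MulSemiringAction G (FractionRing B) :=
    IsFractionRing.mulSemiringAction G B (FractionRing B)
  have hdist : SMulDistribClass G B (FractionRing B) := inferInstance
  have hN : IsGaloisGroup G (FractionRing A) (FractionRing B) :=
    IsGaloisGroup.toFractionRing G A B
  have h1 : IsGalois (FractionRing A) (FractionRing B) := IsGaloisGroup.isGalois G _ _
  have h2 : FiniteDimensional (FractionRing A) (FractionRing B) :=
    IsGaloisGroup.finiteDimensional G _ _
  have h30 : Function.Injective (algebraMap (FractionRing A) (FractionRing B)) :=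
    RingHom.injective (algebraMap (FractionRing A) (FractionRing B))
  have h3 : FaithfulSMul (FractionRing A) (FractionRing B) := by
    rw [faithfulSMul_iff_algebraMap_injective]
    exact h30
  let ι := IsGaloisGroup.mulEquivAlgEquiv G (FractionRing A) (FractionRing B)
  have hι : ∀ g (b : B), ι g (algebraMap B (FractionRing B) b) =
      algebraMap B (FractionRing B) (MvPolynomial.map (g : M →+* M) b) := by
    intro g b
    have : ι g (algebraMap B (FractionRing B) b) = g • (algebraMap B (FractionRing B) b) := rfl
    rw [this, ← algebraMap.coe_smul']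
    rfl
  have hMN : ∀ m : M, algebraMap M (FractionRing B) m = algebraMap B (FractionRing B) (C m) := by
    intro m
    rw [IsScalarTower.algebraMap_apply M B (FractionRing B)]
    rfl
  have hinj : Function.Injective (algebraMap B (FractionRing B)) := IsFractionRing.injective B _
  let P : Fin k → B := Paff (fun i j => β i j) (fun _ => 0)
  refine ⟨FractionRing B, inferInstance, inferInstance, inferInstance, ι,
    fun j => algebraMap B (FractionRing B) (P j), h2, h1, ?_, ?_, ?_, ?_, ?_⟩
  · intro g m
    rw [hMN, hMN, hι, MvPolynomial.map_C]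
    rfl
  · intro g j
    rw [hι]
    have hP : MvPolynomial.map (g : M →+* M) (P j) =
        C (sgM M (ε g j)) * P (act g j) := by
      change MvPolynomial.map (g : M →+* M) (∑ i, C (β i j) * X i + C 0) =
        C (sgM M (ε g j)) * (∑ i, C (β i (act g j)) * X i + C 0)
      rw [map_add, map_sum]
      simp only [map_mul, MvPolynomial.map_C, MvPolynomial.map_X, map_zero, add_zero]
      have e1 : ∀ x, (g : M →+* M) x = g x := fun _ => rfl
      rw [Finset.mul_sum]
      refine Finset.sum_congr rfl fun i _ => ?_
      rw [e1, hβ, C_mul]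
      ring
    rw [hP, map_mul]
    congr 1
    rw [← hMN, map_sgM]
    rfl
  · have hP : AlgebraicIndependent M P := Paff_algInd (fun i j => β i j) γ (fun _ => 0) hγ2
    let f : B →ₐ[M] FractionRing B := IsScalarTower.toAlgHom M B (FractionRing B)
    exact hP.map' (f := f) hinj
  · rw [eq_top_iff]
    intro x _
    have hB : ∀ b : B, algebraMap B (FractionRing B) b ∈
        IntermediateField.adjoin M (Set.range fun j => algebraMap B (FractionRing B) (P j)) := by
      intro b
      induction b using MvPolynomial.induction_on with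
      | C a => rw [← hMN]; exact IntermediateField.algebraMap_mem _ a
      | add p q hp hq => rw [map_add]; exact add_mem hp hq
      | mul_X p l hp =>
        rw [map_mul]
        refine mul_mem hp ?_
        rw [← Paff_inv (fun i j => β i j) γ (fun _ => 0) hγ1 l, map_sum]
        refine sum_mem fun j _ => ?_
        rw [map_mul, map_sub]
        refine mul_mem ?_ (sub_mem ?_ ?_)
        · rw [← hMN]; exact IntermediateField.algebraMap_mem _ _
        · exact IntermediateField.subset_adjoin _ _ ⟨j, rfl⟩
        · rw [← hMN]; exact IntermediateField.algebraMap_mem _ _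
    obtain ⟨a, b, hb, rfl⟩ := IsFractionRing.div_surjective B x
    exact div_mem (hB a) (hB b)
  · intro a
    rw [hMN, IsScalarTower.algebraMap_apply K A (FractionRing A),
      ← IsScalarTower.algebraMap_apply A (FractionRing A) (FractionRing B),
      IsScalarTower.algebraMap_apply A B (FractionRing B)]
    congr 1
    exact (MvPolynomial.map_C _ a).symm

end main

end Pool.Agent.Lib.MP_7f581e_ntA
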