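import Pool.Agent.Lib.MP_7f581e_ntE.Defs
import Pool.Agent.Lib.MP_7f581e_nt.AutPow
import Pool.Agent.Lib.MP_7f581e_ntA.CoreO
import Pool.Agent.Lib.MP_7f581e_ntA.TwistMul

/-!
Extensions with kernel a power of an alternating group in characteristic different from two.
-/

set_option autoImplicit false

universe u

namespace MP7fA

open Polynomial Equiv

theorem solvesOver_altKernelo {K : Type u} [Field K] {n k : ℕ} (hn : 5 ≤ n) (h6 : n ≠ 6)
    (g : GAo n K) {E : Type} [Group E] [Finite E] (N : Subgroup E) [N.Normal]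
    (φ : N ≃* (Fin k → alternatingGroup (Fin n))) :
    MP7fE.SolvesOver K (FractionRing (MvPolynomial (Fin k) K)) (QuotientGroup.mk' N) := by
  intro M _ _ hfd hgal i
  obtain ⟨act, T, ε, hT1, hT2, hT3⟩ :=
    Pool.Agent.Lib.MP_7f581e_nt.AutAlt.exists_perm_data hn h6 N φ
  have hεmul : ∀ a b : E ⧸ N, ∀ j, ε (a * b) j = ε a (act b j) * ε b j := by
    intro a b j
    obtain ⟨a, rfl⟩ := QuotientGroup.mk_surjective a
    obtain ⟨b, rfl⟩ := QuotientGroup.mk_surjective b
    have h1 := congrArg Perm.sign (hT1 a b j)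
    rw [map_mul, hT2, hT2, hT2] at h1
    exact h1
  obtain ⟨Nf, _, _, _, ι, e, h1, h2, h3, h4, h5, h6', h7'⟩ :=
    Pool.Agent.Lib.MP_7f581e_ntA.exists_twisted_field_mul (K := K) (M := M)
      (act.comp i.toMonoidHom) (fun γ j => ε (i γ) j) (by
        intro γ γ' j
        change ε (i (γ * γ')) j = _
        rw [map_mul, hεmul]
        rfl)
  refine coreo (F := FractionRing (MvPolynomial (Fin k) K)) (N := Nf) (by omega) g ι
    (act.comp i.toMonoidHom) (fun γ j => ε (i γ) j) e h7' h3 ?_ h5 h6'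
    (i.symm.toMonoidHom.comp (QuotientGroup.mk' N)) T ?_ ?_ ?_
  · intro γ j
    rw [h4]
  · intro e e' j
    rw [hT1]
    congr 2
    change act (e' : E ⧸ N) j = act (i (i.symm (e' : E ⧸ N))) j
    rw [MulEquiv.apply_symm_apply]
  · intro e j
    rw [hT2]
    change ε (e : E ⧸ N) j = ε (i (i.symm (e : E ⧸ N))) j
    rw [MulEquiv.apply_symm_apply]
  · intro γ τ hτ
    obtain ⟨e, ⟨he1, he2⟩, he3⟩ := hT3 (i γ) τ hτ
    refine ⟨e, ⟨?_, he2⟩, fun e' he' => he3 e' ⟨?_, he'.2⟩⟩
    · change i.symm (e : E ⧸ N) = γ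
      rw [he1, MulEquiv.symm_apply_apply]
    · have h7 : i.symm (e' : E ⧸ N) = γ := he'.1
      rw [← h7, MulEquiv.apply_symm_apply]

end MP7fA
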