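import Mathlib

set_option autoImplicit false
set_option linter.unusedSimpArgs false
set_option linter.unusedSectionVars false

/-!
# Twisted descent (helper11)

`M / K` finite Galois, `act : Gal(M/K) → Perm (Fin k)` a permutation action and `ε` a cocycle with
values in `(ZMod 2)^k`, characteristic two. Then there is a Galois extension `N` of
`K(t_1, ..., t_k)` containing `M`, with the same group, and elements `e_j` which are algebraically
independent over `M`, generate `N` over `M` and satisfy `g e_j = e_{g j} + ε_g(j)`.
-/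

namespace Pool.Agent.Lib.MP_7f581e_ntA

universe u

open MvPolynomial

attribute [local instance] MvPolynomial.algebraMvPolynomial

section coeff

variable {K M : Type u} [Field K] [Field M] [Algebra K M] {k : ℕ}

/-- the action on coefficients -/
@[implicit_reducible]
noncomputable def actB (K M : Type u) [Field K] [Field M] [Algebra K M] (k : ℕ) :
    MulSemiringAction (M ≃ₐ[K] M) (MvPolynomial (Fin k) M) where
  smul g p := MvPolynomial.map (g : M →+* M) p
  one_smul p := by
    change MvPolynomial.map (((1 : M ≃ₐ[K] M)) : M →+* M) p = p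
    have : (((1 : M ≃ₐ[K] M)) : M →+* M) = RingHom.id M := rfl
    rw [this, MvPolynomial.map_id]
  mul_smul g h p := by
    change MvPolynomial.map _ p = MvPolynomial.map _ (MvPolynomial.map _ p)
    rw [MvPolynomial.map_map]
    rfl
  smul_zero g := map_zero _
  smul_add g p q := map_add _ _ _
  smul_one g := map_one _
  smul_mul g p q := map_mul _ _ _

/-- the action on coefficients -/
@[implicit_reducible]
noncomputable def actS (K M : Type u) [Field K] [Field M] [Algebra K M] (k : ℕ) :
    SMul (M ≃ₐ[K] M) (MvPolynomial (Fin k) M) := (actB K M k).toSMul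

attribute [local instance 3000] actB
attribute [local instance 3000] actS

theorem smul_def' (g : M ≃ₐ[K] M) (p : MvPolynomial (Fin k) M) :
    g • p = MvPolynomial.map (g : M →+* M) p := rfl

theorem smul_C (g : M ≃ₐ[K] M) (m : M) :
    g • (C m : MvPolynomial (Fin k) M) = C (g m) := by
  rw [smul_def', MvPolynomial.map_C]; rfl

theorem smul_X (g : M ≃ₐ[K] M) (j : Fin k) :
    g • (X j : MvPolynomial (Fin k) M) = X j := by
  rw [smul_def', MvPolynomial.map_X]

theorem isGaloisGroup [FiniteDimensional K M] [IsGalois K M] :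
    IsGaloisGroup (M ≃ₐ[K] M) (MvPolynomial (Fin k) K) (MvPolynomial (Fin k) M) where
  faithful := ⟨fun {g h} H => by
    ext m
    have := H (C m)
    rw [smul_C, smul_C] at this
    exact MvPolynomial.C_injective _ _ this⟩
  commutes := ⟨fun g a b => by
    rw [Algebra.smul_def, Algebra.smul_def, smul_def', smul_def', map_mul]
    congr 1
    change MvPolynomial.map _ (MvPolynomial.map (algebraMap K M) a) =
      MvPolynomial.map (algebraMap K M) a
    rw [MvPolynomial.map_map]
    have hg : ((g : M ≃ₐ[K] M) : M →+* M).comp (algebraMap K M) = algebraMap K M := by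
      ext x
      simp
    rw [hg]⟩
  isInvariant := ⟨fun p hp => by
    have h1 : p ∈ Set.range (MvPolynomial.map (σ := Fin k) (algebraMap K M)) := by
      rw [MvPolynomial.mem_range_map_iff_coeffs_subset]
      intro c hc
      rw [Finset.mem_coe, MvPolynomial.mem_coeffs_iff] at hc
      obtain ⟨n, hn, rfl⟩ := hc
      have : ∀ g : M ≃ₐ[K] M, g (p.coeff n) = p.coeff n := by
        intro g
        have := congrArg (MvPolynomial.coeff n) (hp g)
        rw [smul_def', MvPolynomial.coeff_map] at this
        exact this
      exact (IsGalois.mem_range_algebraMap_iff_fixed _).2 this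
    obtain ⟨a, ha⟩ := h1
    exact ⟨a, ha⟩⟩

end coeff

section lin

variable {K M : Type u} [Field K] [Field M] [Algebra K M] [FiniteDimensional K M] [IsGalois K M]
  {k : ℕ} (act : (M ≃ₐ[K] M) →* Equiv.Perm (Fin k))

open Classical in
/-- the equivariant maps -/
noncomputable def bvec (c : M) (i : Fin k) : Fin k → M := fun j =>
  ∑ h : M ≃ₐ[K] M, if act h i = j then h c else 0

theorem bvec_equiv (c : M) (i j : Fin k) (g : M ≃ₐ[K] M) :
    g (bvec act c i j) = bvec act c i (act g j) := by
  classical
  unfold bvec
  rw [map_sum]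
  refine Fintype.sum_equiv (Equiv.mulLeft g) _ _ fun h => ?_
  simp only [Equiv.coe_mulLeft, map_mul, Equiv.Perm.mul_apply, AlgEquiv.mul_apply,
    EmbeddingLike.apply_eq_iff_eq]
  split_ifs <;> simp

theorem span_bvec :
    Submodule.span M (Set.range fun ci : M × Fin k => bvec act ci.1 ci.2) = ⊤ := by
  classical
  by_contra hne
  obtain ⟨f, hf0, hf⟩ := Submodule.exists_le_ker_of_lt_top _ (lt_top_iff_ne_top.2 hne)
  apply hf0
  have hfi : ∀ i, f (Pi.single i 1) = 0 := by
    intro i
    have hded := linearIndependent_monoidHom M M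
    rw [linearIndependent_iff'] at hded
    -- the functional composed with the vectors
    have key : ∀ c : M, ∑ h : M ≃ₐ[K] M, f (Pi.single (act h i) 1) * h c = 0 := by
      intro c
      have h1 : f (bvec act c i) = 0 := hf (Submodule.subset_span ⟨(c, i), rfl⟩)
      have h2 : bvec act c i = ∑ h : M ≃ₐ[K] M, h c • (Pi.single (act h i) (1 : M)) := by
        funext j
        rw [Finset.sum_apply]
        unfold bvec
        refine Finset.sum_congr rfl fun h _ => ?_
        rw [Pi.smul_apply, smul_eq_mul, Pi.single_apply]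
        by_cases hj : act h i = j
        · simp [hj]
        · have : ¬ j = act h i := fun e => hj e.symm
          simp [hj, this]
      rw [h2, map_sum] at h1
      rw [← h1]
      refine Finset.sum_congr rfl fun h _ => ?_
      rw [map_smul, smul_eq_mul, mul_comm]
    -- Dedekind
    let T : (M ≃ₐ[K] M) → (M →* M) := fun h => ((h : M →+* M) : M →* M)
    have hT : Function.Injective T := by
      intro a b hab
      ext x
      exact DFunLike.congr_fun hab x
    have hli : LinearIndependent M (fun h : M ≃ₐ[K] M => (T h : M → M)) :=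
      (linearIndependent_monoidHom M M).comp T hT
    rw [Fintype.linearIndependent_iff] at hli
    have := hli (fun h => f (Pi.single (act h i) 1)) (by
      funext c
      rw [Finset.sum_apply]
      exact key c) 1
    simpa using this
  refine LinearMap.pi_ext' fun i => ?_
  ext
  simpa using hfi i

/-- an equivariant basis -/
theorem exists_basis : ∃ β : Module.Basis (Fin k) M (Fin k → M),
    ∀ i j (g : M ≃ₐ[K] M), g (β i j) = β i (act g j) := by
  classical
  set s : Set (Fin k → M) := Set.range fun ci : M × Fin k => bvec act ci.1 ci.2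
  have hs : ⊤ ≤ Submodule.span M s := (span_bvec act).ge
  let b := Module.Basis.ofSpan hs
  have hb : ∀ x, b x ∈ s := fun x => Module.Basis.ofSpan_subset hs ⟨x, rfl⟩
  let e := b.indexEquiv (Pi.basisFun M (Fin k))
  refine ⟨b.reindex e, fun i j g => ?_⟩
  rw [Module.Basis.reindex_apply]
  obtain ⟨⟨c, l⟩, hcl⟩ := hb (e.symm i)
  rw [← hcl]
  exact bvec_equiv act c l j g

theorem exists_trace_one : ∃ c : M, ∑ h : M ≃ₐ[K] M, h c = 1 := by
  obtain ⟨c, hc⟩ := Algebra.trace_surjective K M 1
  refine ⟨c, ?_⟩
  rw [← trace_eq_sum_automorphisms, hc, map_one]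

/-- the additive twist -/
theorem exists_theta [CharP K 2] (ε : (M ≃ₐ[K] M) → Fin k → ZMod 2)
    (hε : ∀ g h j, ε (g * h) j = ε g (act h j) + ε h j) :
    ∃ θ : Fin k → M, ∀ j (g : M ≃ₐ[K] M), g (θ j) = θ (act g j) + (if ε g j = 0 then 0 else 1) := by
  classical
  have : CharP M 2 := charP_of_injective_algebraMap (algebraMap K M).injective 2
  obtain ⟨c, hc⟩ := exists_trace_one (K := K) (M := M)
  let κ : ZMod 2 →+* M := ZMod.castHom (dvd_refl 2) M
  have hκ : ∀ x : ZMod 2, κ x = if x = 0 then 0 else 1 := by
    intro x
    have hx : ∀ x : ZMod 2, x = 0 ∨ x = 1 := by decide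
    rcases hx x with rfl | rfl
    · rw [map_zero, if_pos rfl]
    · rw [map_one, if_neg one_ne_zero]
  refine ⟨fun j => ∑ h : M ≃ₐ[K] M, κ (ε h (act h⁻¹ j)) * h c, fun j g => ?_⟩
  rw [← hκ, map_sum]
  have e1 : κ (ε g j) = ∑ h : M ≃ₐ[K] M, κ (ε g j) * h c := by
    rw [← Finset.mul_sum, hc, mul_one]
  rw [e1, ← Finset.sum_add_distrib]
  refine Fintype.sum_equiv (Equiv.mulLeft g) _ _ fun h => ?_
  have h2 : g (κ (ε h (act h⁻¹ j))) = κ (ε h (act h⁻¹ j)) := by
    rw [hκ]; split_ifs <;> simp
  rw [map_mul, h2]
  have h3 : act (g * h)⁻¹ (act g j) = act h⁻¹ j := by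
    rw [← Equiv.Perm.mul_apply, ← map_mul]
    congr 2
    group
  have h4 : act h (act h⁻¹ j) = j := by
    rw [← Equiv.Perm.mul_apply, ← map_mul, mul_inv_cancel, map_one]; rfl
  simp only [Equiv.coe_mulLeft]
  rw [h3, hε, h4, map_add]
  have h5 : (2 : M) = 0 := CharP.cast_eq_zero M 2
  rw [AlgEquiv.mul_apply]
  have : κ (ε g j) + κ (ε g j) = 0 := by rw [← two_mul, h5, zero_mul]
  linear_combination (-(1 : M)) * g (h c) * this

end lin

section main

attribute [local instance] FractionRing.liftAlgebra
attribute [local instance 3000] actB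
attribute [local instance 3000] actS

theorem exists_inverse {M : Type u} [Field M] {k : ℕ} (β : Module.Basis (Fin k) M (Fin k → M)) :
    ∃ γ : Fin k → Fin k → M,
      (∀ l i, ∑ j, γ l j * β i j = if l = i then 1 else 0) ∧
      (∀ j j', ∑ i, β i j * γ i j' = if j = j' then 1 else 0) := by
  classical
  refine ⟨fun l j => β.toMatrix (Pi.basisFun M (Fin k)) l j, fun l i => ?_, fun j j' => ?_⟩
  · have h := congrFun (congrFun (β.toMatrix_mul_toMatrix_flip (Pi.basisFun M (Fin k))) l) i
    rw [Matrix.mul_apply, Matrix.one_apply] at h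
    rw [← h]
    refine Finset.sum_congr rfl fun j _ => ?_
    simp [Module.Basis.toMatrix_apply]
  · have h := congrFun (congrFun ((Pi.basisFun M (Fin k)).toMatrix_mul_toMatrix_flip β) j) j'
    rw [Matrix.mul_apply, Matrix.one_apply] at h
    rw [← h]
    refine Finset.sum_congr rfl fun i _ => ?_
    simp [Module.Basis.toMatrix_apply]

/-- the affine coordinates -/
noncomputable def Paff {M : Type u} [Field M] {k : ℕ} (β : Fin k → Fin k → M) (θ : Fin k → M)
    (j : Fin k) : MvPolynomial (Fin k) M := ∑ i, C (β i j) * X i + C (θ j)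

theorem Paff_inv {M : Type u} [Field M] {k : ℕ} (β γ : Fin k → Fin k → M) (θ : Fin k → M)
    (h1 : ∀ l i, ∑ j, γ l j * β i j = if l = i then 1 else 0) (l : Fin k) :
    ∑ j, C (γ l j) * (Paff β θ j - C (θ j)) = (X l : MvPolynomial (Fin k) M) := by
  classical
  have : ∀ j, C (γ l j) * (Paff β θ j - C (θ j)) =
      ∑ i, (C (γ l j * β i j) * X i : MvPolynomial (Fin k) M) := by
    intro j
    unfold Paff
    rw [add_sub_cancel_right, Finset.mul_sum]
    refine Finset.sum_congr rfl fun i _ => ?_
    rw [C_mul]; ring
  rw [Finset.sum_congr rfl fun j _ => this j, Finset.sum_comm]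
  have h2 : ∀ i, ∑ j, (C (γ l j * β i j) * X i : MvPolynomial (Fin k) M) =
      if l = i then X i else 0 := by
    intro i
    rw [← Finset.sum_mul, ← map_sum, h1]
    split_ifs <;> simp
  rw [Finset.sum_congr rfl fun i _ => h2 i]
  simp

theorem Paff_algInd {M : Type u} [Field M] {k : ℕ} (β γ : Fin k → Fin k → M) (θ : Fin k → M)
    (h2 : ∀ j j', ∑ i, β i j * γ i j' = if j = j' then 1 else 0) :
    AlgebraicIndependent M (Paff β θ) := by
  classical
  rw [AlgebraicIndependent]
  let Ψ : MvPolynomial (Fin k) M →ₐ[M] MvPolynomial (Fin k) M :=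
    aeval fun l => ∑ j, C (γ l j) * (X j - C (θ j))
  have hid : Ψ.comp (aeval (Paff β θ)) = AlgHom.id M _ := by
    refine MvPolynomial.algHom_ext fun j => ?_
    rw [AlgHom.comp_apply, aeval_X, AlgHom.id_apply]
    unfold Paff
    rw [map_add, map_sum]
    have e1 : ∀ i, Ψ (C (β i j) * X i) =
        ∑ j', (C (β i j * γ i j') * (X j' - C (θ j')) : MvPolynomial (Fin k) M) := by
      intro i
      rw [map_mul, aeval_X, Finset.mul_sum]
      refine Finset.sum_congr rfl fun j' _ => ?_
      have : Ψ (C (β i j)) = C (β i j) := Ψ.commutes (β i j)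
      rw [this, C_mul]; ring
    rw [Finset.sum_congr rfl fun i _ => e1 i, Finset.sum_comm]
    have e2 : ∀ j', ∑ i, (C (β i j * γ i j') * (X j' - C (θ j')) : MvPolynomial (Fin k) M) =
        if j = j' then (X j' - C (θ j')) else 0 := by
      intro j'
      rw [← Finset.sum_mul, ← map_sum, h2]
      split_ifs <;> simp
    rw [Finset.sum_congr rfl fun j' _ => e2 j']
    have e3 : Ψ (C (θ j)) = C (θ j) := Ψ.commutes (θ j)
    rw [e3]
    simp
  intro a b hab
  have := congrArg Ψ hab
  rw [← AlgHom.comp_apply, ← AlgHom.comp_apply, hid] at this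
  simpa using this

theorem exists_twisted_field {K M : Type u} [Field K] [Field M] [Algebra K M]
    [FiniteDimensional K M] [IsGalois K M] [CharP K 2] {k : ℕ}
    (act : (M ≃ₐ[K] M) →* Equiv.Perm (Fin k)) (ε : (M ≃ₐ[K] M) → Fin k → ZMod 2)
    (hε : ∀ g h j, ε (g * h) j = ε g (act h j) + ε h j) :
    ∃ (N : Type u) (_ : Field N) (_ : Algebra (FractionRing (MvPolynomial (Fin k) K)) N)
      (_ : Algebra M N)
      (ι : (M ≃ₐ[K] M) ≃* (N ≃ₐ[FractionRing (MvPolynomial (Fin k) K)] N)) (e : Fin k → N),
      FiniteDimensional (FractionRing (MvPolynomial (Fin k) K)) N ∧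
      IsGalois (FractionRing (MvPolynomial (Fin k) K)) N ∧
      (∀ g m, ι g (algebraMap M N m) = algebraMap M N (g m)) ∧
      (∀ g j, ι g (e j) = e (act g j) + (if ε g j = 0 then 0 else 1)) ∧
      AlgebraicIndependent M e ∧ IntermediateField.adjoin M (Set.range e) = ⊤ ∧
      ∀ a : K, algebraMap M N (algebraMap K M a) =
        algebraMap (FractionRing (MvPolynomial (Fin k) K)) N
          (algebraMap K (FractionRing (MvPolynomial (Fin k) K)) a) := by
  classical
  obtain ⟨β, hβ⟩ := exists_basis act
  obtain ⟨θ, hθ⟩ := exists_theta act ε hε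
  obtain ⟨γ, hγ1, hγ2⟩ := exists_inverse β
  let A := MvPolynomial (Fin k) K
  let B := MvPolynomial (Fin k) M
  let G := M ≃ₐ[K] M
  have hGal : IsGaloisGroup G A B := isGaloisGroup
  have : FaithfulSMul A B := by
    rw [faithfulSMul_iff_algebraMap_injective]
    exact MvPolynomial.map_injective _ (algebraMap K M).injective
  have : FaithfulSMul A (FractionRing B) := inferInstance
  letI actN : MulSemiringAction G (FractionRing B) :=
    IsFractionRing.mulSemiringAction G B (FractionRing B)
  have hdist : SMulDistribClass G B (FractionRing B) := inferInstance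
  have hN : IsGaloisGroup G (FractionRing A) (FractionRing B) :=
    IsGaloisGroup.toFractionRing G A B
  have h1 : IsGalois (FractionRing A) (FractionRing B) := IsGaloisGroup.isGalois G _ _
  have h2 : FiniteDimensional (FractionRing A) (FractionRing B) :=
    IsGaloisGroup.finiteDimensional G _ _
  have h30 : Function.Injective (algebraMap (FractionRing A) (FractionRing B)) :=
    RingHom.injective (algebraMap (FractionRing A) (FractionRing B))
  have h3 : FaithfulSMul (FractionRing A) (FractionRing B) := by
    rw [faithfulSMul_iff_algebraMap_injective]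
    exact h30
  let ι := IsGaloisGroup.mulEquivAlgEquiv G (FractionRing A) (FractionRing B)
  have hι : ∀ g (b : B), ι g (algebraMap B (FractionRing B) b) =
      algebraMap B (FractionRing B) (MvPolynomial.map (g : M →+* M) b) := by
    intro g b
    have : ι g (algebraMap B (FractionRing B) b) = g • (algebraMap B (FractionRing B) b) := rfl
    rw [this, ← algebraMap.coe_smul']
    rfl
  have hMN : ∀ m : M, algebraMap M (FractionRing B) m = algebraMap B (FractionRing B) (C m) := by
    intro m
    rw [IsScalarTower.algebraMap_apply M B (FractionRing B)]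
    rfl
  have hinj : Function.Injective (algebraMap B (FractionRing B)) := IsFractionRing.injective B _
  let P : Fin k → B := Paff (fun i j => β i j) θ
  refine ⟨FractionRing B, inferInstance, inferInstance, inferInstance, ι,
    fun j => algebraMap B (FractionRing B) (P j), h2, h1, ?_, ?_, ?_, ?_, ?_⟩
  · intro g m
    rw [hMN, hMN, hι, MvPolynomial.map_C]
    rfl
  · intro g j
    rw [hι]
    have hP : MvPolynomial.map (g : M →+* M) (P j) =
        P (act g j) + C (if ε g j = 0 then 0 else 1) := by
      change MvPolynomial.map (g : M →+* M) (∑ i, C (β i j) * X i + C (θ j)) =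
        (∑ i, C (β i (act g j)) * X i + C (θ (act g j))) + C (if ε g j = 0 then 0 else 1)
      rw [map_add, map_sum]
      simp only [map_mul, MvPolynomial.map_C, MvPolynomial.map_X]
      have e1 : ∀ x, (g : M →+* M) x = g x := fun _ => rfl
      simp only [e1, hβ, hθ, map_add, add_assoc]
    rw [hP, map_add]
    congr 1
    split_ifs <;> simp
  · have hP : AlgebraicIndependent M P := Paff_algInd (fun i j => β i j) γ θ hγ2
    let f : B →ₐ[M] FractionRing B := IsScalarTower.toAlgHom M B (FractionRing B)
    exact hP.map' (f := f) hinj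
  · rw [eq_top_iff]
    intro x _
    have hB : ∀ b : B, algebraMap B (FractionRing B) b ∈
        IntermediateField.adjoin M (Set.range fun j => algebraMap B (FractionRing B) (P j)) := by
      intro b
      induction b using MvPolynomial.induction_on with
      | C a => rw [← hMN]; exact IntermediateField.algebraMap_mem _ a
      | add p q hp hq => rw [map_add]; exact add_mem hp hq
      | mul_X p l hp =>
        rw [map_mul]
        refine mul_mem hp ?_
        rw [← Paff_inv (fun i j => β i j) γ θ hγ1 l, map_sum]
        refine sum_mem fun j _ => ?_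
        rw [map_mul, map_sub]
        refine mul_mem ?_ (sub_mem ?_ ?_)
        · rw [← hMN]; exact IntermediateField.algebraMap_mem _ _
        · exact IntermediateField.subset_adjoin _ _ ⟨j, rfl⟩
        · rw [← hMN]; exact IntermediateField.algebraMap_mem _ _
    obtain ⟨a, b, hb, rfl⟩ := IsFractionRing.div_surjective B x
    exact div_mem (hB a) (hB b)
  · intro a
    rw [hMN, IsScalarTower.algebraMap_apply K A (FractionRing A),
      ← IsScalarTower.algebraMap_apply A (FractionRing A) (FractionRing B),
      IsScalarTower.algebraMap_apply A B (FractionRing B)]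
    congr 1
    exact (MvPolynomial.map_C _ a).symm

end main

end Pool.Agent.Lib.MP_7f581e_ntA
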