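import Pool.Agent.Lib.MP_7f581e_ntE.Hom
import Pool.Agent.Lib.MP_7f581e_ntA.Assemble
import Pool.Agent.Lib.MP_7f581e_ntA.Core

/-!
Realisation of an extension with kernel `A_n ^ k` in characteristic two, over the field of
invariants of the twisted action: the main step.
-/

set_option autoImplicit false

universe u

namespace MP7fA

open Polynomial Equiv

section core

variable {K M F N : Type u} [Field K] [Field M] [Field F] [Field N] [Algebra K M]
  [Algebra F N] [Algebra M N] [FiniteDimensional F N] [IsGalois F N] {n k : ℕ}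

theorem core_aux [Algebra K F] (Ω : Type u) [Field Ω] [Algebra N Ω] [Algebra F Ω] [IsScalarTower F N Ω]
    [Algebra M Ω] [IsScalarTower M N Ω] [Algebra K Ω] [IsScalarTower K M Ω] [CharP Ω 2]
    [IsSepClosed Ω] [IsGalois F Ω] (hn : 2 ≤ n) (g : GA n K) (ι : (M ≃ₐ[K] M) ≃* (N ≃ₐ[F] N))
    (act : (M ≃ₐ[K] M) →* Perm (Fin k)) (ε : (M ≃ₐ[K] M) → Fin k → ℤˣ) (e : Fin k → N)
    (hKFN : ∀ a : K, algebraMap M N (algebraMap K M a) = algebraMap F N (algebraMap K F a))
    (hι : ∀ g m, ι g (algebraMap M N m) = algebraMap M N (g m))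
    (hιe : ∀ g j, ι g (e j) = e (act g j) + (if ε g j = 1 then 0 else 1))
    (hind : AlgebraicIndependent M e)
    (hgenN : IntermediateField.adjoin M (Set.range e) = ⊤)
    {E : Type} [Group E] (cls : E →* (M ≃ₐ[K] M)) (T : E → Fin k → Perm (Fin n))
    (hT1 : ∀ e e' j, T (e * e') j = T e (act (cls e') j) * T e' j)
    (hT2 : ∀ e j, Perm.sign (T e j) = ε (cls e) j)
    (hT3 : ∀ (g : M ≃ₐ[K] M) (τ : Fin k → Perm (Fin n)), (∀ j, Perm.sign (τ j) = ε g j) →
      ∃! e : E, cls e = g ∧ T e = τ) :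
    ∃ (L : Type u) (_ : Field L) (_ : Algebra F L) (_ : FiniteDimensional F L)
      (_ : IsGalois F L) (e' : (L ≃ₐ[F] L) ≃* E) (j : M →+* L),
      (∀ a : K, j (algebraMap K M a) = algebraMap F L (algebraMap K F a)) ∧
      ∀ (σ : L ≃ₐ[F] L) (x : M), σ (j x) = j (cls (e' σ) x) := by
  classical
  have two0 : (2 : Ω) = 0 := CharTwo.two_eq_zero
  obtain ⟨EE, hEE⟩ : ∃ EE : Fin k → Ω, ∀ j, EE j = algebraMap N Ω (e j) := ⟨_, fun _ => rfl⟩
  have hEE' : EE = algebraMap N Ω ∘ e := funext hEE
  have hindΩ : AlgebraicIndependent M EE := by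
    rw [hEE']
    exact hind.map' (f := IsScalarTower.toAlgHom M N Ω) (algebraMap N Ω).injective
  have htrE : ∀ j, Transcendental K (EE j) := fun j =>
    (hindΩ.transcendental j).restrictScalars (algebraMap K M).injective
  have hγ : algebraMap K Ω g.γ ≠ 0 := by
    rw [Ne, map_eq_zero]
    exact g.hγ
  have hden : ∀ j, EE j ^ 2 + EE j + algebraMap K Ω g.c ≠ 0 := by
    intro j h0
    apply htrE j
    refine ⟨X ^ 2 + X + C g.c, ?_, by simpa using h0⟩
    have h4 : (X ^ 2 + X + C g.c : K[X]).Monic := by monicity!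
    exact h4.ne_zero
  obtain ⟨v, hv⟩ : ∃ v : Fin k → Ω, ∀ j, v j = algebraMap K Ω g.γ /
      (EE j ^ 2 + EE j + algebraMap K Ω g.c) - algebraMap K Ω g.b := ⟨_, fun _ => rfl⟩
  have hrel : ∀ j, (EE j ^ 2 + EE j + algebraMap K Ω g.c) * (v j + algebraMap K Ω g.b) =
      algebraMap K Ω g.γ := by
    intro j
    rw [hv j, sub_add_cancel, mul_div_cancel₀ _ (hden j)]
  have htr : ∀ j, Transcendental K (v j) := fun j =>
    transcendental_param g.c g.γ g.b g.hγ (EE j) (v j) (hrel j) (htrE j)
  choose y hinj hprod hvP hsg using fun j => exists_roots hn g (EE j) (v j) (hrel j) (htr j)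
  -- the projection
  let π : (Ω ≃ₐ[F] Ω) →* (M ≃ₐ[K] M) :=
    ι.symm.toMonoidHom.comp (AlgEquiv.restrictNormalHom (F := F) (K₁ := Ω) N)
  have hπN : ∀ (γ : Ω ≃ₐ[F] Ω) (x : N), γ (algebraMap N Ω x) = algebraMap N Ω (ι (π γ) x) := by
    intro γ x
    have h1 : ι (π γ) = AlgEquiv.restrictNormalHom (F := F) (K₁ := Ω) N γ :=
      ι.apply_symm_apply _
    rw [h1]
    exact (AlgEquiv.restrictNormal_commutes γ N x).symm
  have hπM : ∀ (γ : Ω ≃ₐ[F] Ω) (m : M), γ (algebraMap M Ω m) = algebraMap M Ω (π γ m) := by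
    intro γ m
    rw [IsScalarTower.algebraMap_apply M N Ω, hπN, hι, ← IsScalarTower.algebraMap_apply]
  have hπK : ∀ (γ : Ω ≃ₐ[F] Ω) (a : K), γ (algebraMap K Ω a) = algebraMap K Ω a := by
    intro γ a
    rw [IsScalarTower.algebraMap_apply K M Ω, hπM, AlgEquiv.commutes]
  have hπE : ∀ (γ : Ω ≃ₐ[F] Ω) (j : Fin k), γ (EE j) = EE (act (π γ) j) +
      (if ε (π γ) j = 1 then 0 else 1) := by
    intro γ j
    rw [hEE, hπN, hιe, map_add, hEE]
    split_ifs <;> simp
  have hπv : ∀ (γ : Ω ≃ₐ[F] Ω) (j : Fin k), γ (v j) = v (act (π γ) j) := by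
    intro γ j
    have h1 : (γ (EE j)) ^ 2 + γ (EE j) = EE (act (π γ) j) ^ 2 + EE (act (π γ) j) := by
      rw [hπE]
      split_ifs
      · rw [add_zero]
      · linear_combination (EE (act (π γ) j) + 1) * two0
    rw [hv j, hv (act (π γ) j), map_sub, map_div₀, map_add, map_add, map_pow, hπK, hπK, hπK, h1]
  have hπev : ∀ (γ : Ω ≃ₐ[F] Ω) (j : Fin k) (r : RatFunc K),
      γ (ev (v j) (htr j) r) = ev (v (act (π γ) j)) (htr _) r := by
    intro γ j r
    have h1 : ((γ : Ω →+* Ω).comp (ev (v j) (htr j))) = ev (v (act (π γ) j)) (htr _) := by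
      apply ringHom_ext_ratFunc
      · intro a
        rw [RingHom.comp_apply, ev_C, ev_C]
        exact hπK γ a
      · rw [RingHom.comp_apply, ev_X, ev_X]
        exact hπv γ j
    exact DFunLike.congr_fun h1 r
  have hπsurj : Function.Surjective π :=
    ι.symm.surjective.comp (AlgEquiv.restrictNormalHom_surjective (F := F) (K₁ := N) Ω)
  have hπ1 : ∀ γ : Ω ≃ₐ[F] Ω, π γ = 1 ↔ ∀ x : N, γ (algebraMap N Ω x) = algebraMap N Ω x := by
    intro γ
    constructor
    · intro h x
      rw [hπN, h, map_one]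
      rfl
    · intro h
      apply ι.injective
      rw [map_one]
      ext x
      apply (algebraMap N Ω).injective
      rw [← hπN, h]
      rfl
  have hfdN : FiniteDimensional F (IsScalarTower.toAlgHom F N Ω).fieldRange :=
    (AlgEquiv.ofInjectiveField (IsScalarTower.toAlgHom F N Ω)).toLinearEquiv.finiteDimensional
  suffices hsuff : ∃ (Φ : (Ω ≃ₐ[F] Ω) →* E) (L : IntermediateField F Ω), Function.Surjective Φ ∧
      FiniteDimensional F L ∧ Φ.ker = L.fixingSubgroup ∧ ∀ γ, cls (Φ γ) = π γ by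
    obtain ⟨Φ, L, h1, h2, h3, h4⟩ := hsuff
    refine MP7fE.sol_of_hom (algebraMap M Ω) (fun a => ?_) cls Φ h1 L h3 (fun γ m => ?_)
    · rw [IsScalarTower.algebraMap_apply M N Ω, hKFN, ← IsScalarTower.algebraMap_apply F N Ω]
    · rw [hπM, h4]
  refine assembly π hπsurj (IsScalarTower.toAlgHom F N Ω).fieldRange ?_ act ε y hinj ?_ ?_
    cls T hT1 hT2 hT3
  · ext γ
    rw [MonoidHom.mem_ker, hπ1, IntermediateField.mem_fixingSubgroup_iff]
    constructor
    · rintro h _ ⟨x, rfl⟩
      exact h x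
    · intro h x
      exact h _ ⟨x, rfl⟩
  · -- permutations
    intro γ j
    set j' := act (π γ) j with hj'
    have hroot : ∀ i, ∃ i', γ (y j i) = y j' i' := by
      intro i
      have h1 : (∏ i, (X - C (y j i))).map (γ : Ω →+* Ω) = ∏ i, (X - C (y j' i)) := by
        rw [← hprod j, ← hprod j', Polynomial.map_add, Polynomial.map_mul, map_C,
          Polynomial.map_map, Polynomial.map_map]
        have h2 : (γ : Ω →+* Ω).comp (algebraMap K Ω) = algebraMap K Ω :=
          RingHom.ext fun a => hπK γ a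
        rw [h2]
        congr 3
        exact hπv γ j
      have h3 : eval (γ (y j i)) (∏ i, (X - C (y j' i))) = 0 := by
        rw [← h1, Polynomial.map_prod, eval_prod]
        apply Finset.prod_eq_zero (Finset.mem_univ i)
        simp
      rw [eval_prod, Finset.prod_eq_zero_iff] at h3
      obtain ⟨i', -, hi'⟩ := h3
      refine ⟨i', ?_⟩
      rw [eval_sub, eval_X, eval_C] at hi'
      exact sub_eq_zero.mp hi'
    choose p hp using hroot
    have hpinj : Function.Injective p := by
      intro a b hab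
      apply hinj j
      apply γ.injective
      rw [hp, hp, hab]
    let P : Perm (Fin n) := Equiv.ofBijective p (Finite.injective_iff_bijective.mp hpinj)
    have hP : ∀ i, γ (y j i) = y j' (P i) := hp
    refine ⟨P, hP, ?_⟩
    have hcomp : ((γ : Ω →+* Ω) ∘ y j) = y j' ∘ P := funext hP
    have h1 : γ (sg (y j)) = sg (y j' ∘ P) := by
      have h2 := map_sg (γ : Ω →+* Ω) (y j)
      rw [hcomp] at h2
      exact h2
    have h3 : γ (EE j) = sg (y j' ∘ P) + ev (v j') (htr j') g.w := by
      rw [← hsg j, map_add, h1, hπev]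
    rw [hπE] at h3
    rcases MP7f.sign_cases P with h | h
    · rw [h]
      rw [sg_comp_even _ _ h, hsg j'] at h3
      by_contra hne
      rw [if_neg (fun h => hne h.symm)] at h3
      exact one_ne_zero (α := Ω) (by linear_combination h3)
    · rw [h]
      rw [sg_comp_odd _ (hvP j') _ h] at h3
      rcases Int.units_eq_one_or (ε (π γ) j) with h4 | h4
      · exfalso
        rw [if_pos h4] at h3
        have h5 := hsg j'
        exact one_ne_zero (α := Ω) (by linear_combination -h3 - h5)
      · exact h4.symm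
  · -- moves
    intro j₀ σ hσ
    let S : Set Ω := Set.range EE ∪ ⋃ j, Set.range (y j)
    let L : IntermediateField M Ω := IntermediateField.adjoin M S
    have heL : ∀ j, EE j ∈ L := fun j =>
      IntermediateField.subset_adjoin _ _ (Or.inl ⟨j, rfl⟩)
    have hyL : ∀ j i, y j i ∈ L := fun j i =>
      IntermediateField.subset_adjoin _ _ (Or.inr (Set.mem_iUnion.mpr ⟨j, i, rfl⟩))
    have hKL : ∀ a : K, algebraMap K Ω a ∈ L := by
      intro a
      rw [IsScalarTower.algebraMap_apply K M Ω]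
      exact L.algebraMap_mem _
    have hvL : ∀ j, v j ∈ L := by
      intro j
      rw [hv j]
      exact L.sub_mem (L.div_mem (hKL _) (L.add_mem (L.add_mem (pow_mem (heL j) 2)
        (heL j)) (hKL _))) (hKL _)
    let _ : Algebra K L := ((algebraMap K Ω).codRestrict L hKL).toAlgebra
    have htowL : IsScalarTower K M L := IsScalarTower.of_algebraMap_eq fun a => by
      apply Subtype.ext
      exact IsScalarTower.algebraMap_apply K M Ω a
    have hKLc : (algebraMap L Ω).comp (algebraMap K L) = algebraMap K Ω := rfl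
    have hcharL : CharP L 2 := (algebraMap L Ω).charP (algebraMap L Ω).injective 2
    obtain ⟨τ, hτ1, hτ2, hτ3⟩ := exists_move g (fun j => (⟨EE j, heL j⟩ : L))
      (AlgebraicIndependent.of_comp (f := L.val) hindΩ)
      (fun j i => (⟨y j i, hyL j i⟩ : L)) (fun j i i' h => hinj j (congrArg Subtype.val h))
      (fun j => (⟨v j, hvL j⟩ : L)) (fun j => Subtype.ext (hrel j))
      (fun j => by
        apply Polynomial.map_injective _ (algebraMap L Ω).injective
        rw [Polynomial.map_add, Polynomial.map_mul, map_C, Polynomial.map_map,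
          Polynomial.map_map, hKLc, Polynomial.map_prod]
        simp only [Polynomial.map_sub, map_X, map_C]
        exact hprod j)
      (by
        apply IntermediateField.map_injective L.val
        rw [IntermediateField.adjoin_map, ← AlgHom.fieldRange_eq_map,
          IntermediateField.fieldRange_val, Set.image_union, ← Set.range_comp, Set.image_iUnion]
        change IntermediateField.adjoin M (Set.range EE ∪ _) = IntermediateField.adjoin M S
        congr 2
        apply Set.iUnion_congr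
        intro j
        rw [← Set.range_comp]
        rfl) j₀ σ hσ
    obtain ⟨τ', h1, h2⟩ := exists_lift_move (F := F) e hgenN L
      (fun j => by rw [← hEE]; exact heL j) τ (fun j => by
        have h3 := hτ1 j
        have h4 : (⟨algebraMap N Ω (e j), by rw [← hEE]; exact heL j⟩ : L) = ⟨EE j, heL j⟩ :=
          Subtype.ext (hEE j).symm
        rw [h4]
        exact h3)
    refine ⟨τ', (hπ1 τ').mpr h1, ?_, ?_⟩
    · intro j hj i
      rw [h2 ⟨y j i, hyL j i⟩, hτ2 j hj i]
    · intro i
      rw [h2 ⟨y j₀ i, hyL j₀ i⟩, hτ3 i]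

/-- The main step in characteristic two. -/
theorem core [Algebra K F] (hn : 2 ≤ n) [CharP K 2] (g : GA n K) (ι : (M ≃ₐ[K] M) ≃* (N ≃ₐ[F] N))
    (act : (M ≃ₐ[K] M) →* Perm (Fin k)) (ε : (M ≃ₐ[K] M) → Fin k → ℤˣ) (e : Fin k → N)
    (hKFN : ∀ a : K, algebraMap M N (algebraMap K M a) = algebraMap F N (algebraMap K F a))
    (hι : ∀ g m, ι g (algebraMap M N m) = algebraMap M N (g m))
    (hιe : ∀ g j, ι g (e j) = e (act g j) + (if ε g j = 1 then 0 else 1))
    (hind : AlgebraicIndependent M e)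
    (hgenN : IntermediateField.adjoin M (Set.range e) = ⊤)
    {E : Type} [Group E] (cls : E →* (M ≃ₐ[K] M)) (T : E → Fin k → Perm (Fin n))
    (hT1 : ∀ e e' j, T (e * e') j = T e (act (cls e') j) * T e' j)
    (hT2 : ∀ e j, Perm.sign (T e j) = ε (cls e) j)
    (hT3 : ∀ (g : M ≃ₐ[K] M) (τ : Fin k → Perm (Fin n)), (∀ j, Perm.sign (τ j) = ε g j) →
      ∃! e : E, cls e = g ∧ T e = τ) :
    ∃ (L : Type u) (_ : Field L) (_ : Algebra F L) (_ : FiniteDimensional F L)
      (_ : IsGalois F L) (e' : (L ≃ₐ[F] L) ≃* E) (j : M →+* L),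
      (∀ a : K, j (algebraMap K M a) = algebraMap F L (algebraMap K F a)) ∧
      ∀ (σ : L ≃ₐ[F] L) (x : M), σ (j x) = j (cls (e' σ) x) := by
  let Ω := SeparableClosure N
  let _ : Algebra F Ω := ((algebraMap N Ω).comp (algebraMap F N)).toAlgebra
  have h1 : IsScalarTower F N Ω := IsScalarTower.of_algebraMap_eq fun _ => rfl
  let _ : Algebra M Ω := ((algebraMap N Ω).comp (algebraMap M N)).toAlgebra
  have h2 : IsScalarTower M N Ω := IsScalarTower.of_algebraMap_eq fun _ => rfl
  let _ : Algebra K Ω := ((algebraMap M Ω).comp (algebraMap K M)).toAlgebra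
  have h3 : IsScalarTower K M Ω := IsScalarTower.of_algebraMap_eq fun _ => rfl
  have h4 : CharP Ω 2 := charP_of_injective_algebraMap (algebraMap K Ω).injective 2
  have h5 : Algebra.IsSeparable F Ω := Algebra.IsSeparable.trans F N Ω
  have h6 : IsSepClosure F Ω := ⟨inferInstance, h5⟩
  have h7 : IsGalois F Ω := inferInstance
  exact core_aux Ω hn g ι act ε e hKFN hι hιe hind hgenN cls T hT1 hT2 hT3

end core

end MP7fA
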