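import Pool.Agent.Lib.MP_7f581e_nt.Sign

/-!
The data used for realising embedding problems with alternating kernels in characteristic two:
a pencil `P + v Q` over `K` whose Galois group over `F(v)` is the full symmetric group for every
extension `F` of `K`, and whose sign character is given by the Artin-Schreier equation
`e ^ 2 + e = c + γ / (v + b)`.
-/

set_option autoImplicit false

universe u

namespace MP7fA

open Polynomial Equiv

/-- The generic member of a pencil. -/
noncomputable def pen {K : Type u} [Field K] (P Q : K[X]) : (RatFunc K)[X] :=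
  P.map (algebraMap K (RatFunc K)) + C RatFunc.X * Q.map (algebraMap K (RatFunc K))

/-- Symmetric pencils with rational sign field. -/
structure GA (n : ℕ) (K : Type u) [Field K] where
  /-- first generator of the pencil -/
  P : K[X]
  /-- second generator of the pencil -/
  Q : K[X]
  /-- constant of the sign character -/
  c : K
  /-- residue of the sign character -/
  γ : K
  /-- pole of the sign character -/
  b : K
  /-- correction of the sign element -/
  w : RatFunc K
  hγ : γ ≠ 0
  monic : P.Monic
  deg : P.natDegree = n
  degQ : Q.degree < (n : WithBot ℕ)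
  sep : (pen P Q).Separable
  sign : ∀ (L : Type u) [Field L] (φ : RatFunc K →+* L) (y : Fin n → L), Function.Injective y →
    (pen P Q).map φ = ∏ i, (X - C (y i)) →
    MP7f.vP y ≠ 0 ∧ (MP7f.vE y / MP7f.vP y + φ w) ^ 2 + (MP7f.vE y / MP7f.vP y + φ w) =
      φ (algebraMap K (RatFunc K) c +
        algebraMap K (RatFunc K) γ / (RatFunc.X + algebraMap K (RatFunc K) b))
  gal : ∀ (F : Type u) [Field F] [Algebra K F] (L : Type u) [Field L] [Algebra (RatFunc F) L]
    (y : Fin n → L),
    (pen (P.map (algebraMap K F)) (Q.map (algebraMap K F))).map (algebraMap (RatFunc F) L) =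
      ∏ i, (X - C (y i)) →
    Algebra.adjoin (RatFunc F) (Set.range y) = ⊤ →
    ∀ σ : Perm (Fin n), ∃ τ : L ≃ₐ[RatFunc F] L, ∀ i, τ (y i) = y (σ i)

end MP7fA
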