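import Pool.Agent.Lib.MP_7f581e_ntA.Gadget

/-!
The data used for realising embedding problems with alternating kernels in odd characteristic:
a pencil `P + v Q` over `K` whose Galois group over `F(v)` is the full symmetric group for every
extension `F` of `K`, and whose discriminant class has exactly two branch points, both rational.
-/

set_option autoImplicit false

universe u

namespace MP7fA

open Polynomial Equiv

/-- Symmetric pencils with rational sign field, characteristic different from two. -/
structure GAo (n : ℕ) (K : Type u) [Field K] where
  /-- first generator of the pencil -/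
  P : K[X]
  /-- second generator of the pencil -/
  Q : K[X]
  /-- coefficient of the discriminant class -/
  a1 : K
  /-- coefficient of the discriminant class -/
  a0 : K
  /-- coefficient of the discriminant class -/
  b1 : K
  /-- coefficient of the discriminant class -/
  b0 : K
  /-- correction of the Vandermonde determinant -/
  r : RatFunc K
  h2 : (2 : K) ≠ 0
  hab : a1 * b0 - a0 * b1 ≠ 0
  hr : r ≠ 0
  monic : P.Monic
  deg : P.natDegree = n
  degQ : Q.degree < (n : WithBot ℕ)
  sep : (pen P Q).Separable
  sign : ∀ (L : Type u) [Field L] (φ : RatFunc K →+* L) (y : Fin n → L), Function.Injective y →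
    (pen P Q).map φ = ∏ i, (X - C (y i)) →
    (MP7f.vV y * φ r) ^ 2 *
      φ (algebraMap K (RatFunc K) b1 * RatFunc.X + algebraMap K (RatFunc K) b0) =
      φ (algebraMap K (RatFunc K) a1 * RatFunc.X + algebraMap K (RatFunc K) a0)
  gal : ∀ (F : Type u) [Field F] [Algebra K F] (L : Type u) [Field L] [Algebra (RatFunc F) L]
    (y : Fin n → L),
    (pen (P.map (algebraMap K F)) (Q.map (algebraMap K F))).map (algebraMap (RatFunc F) L) =
      ∏ i, (X - C (y i)) →
    Algebra.adjoin (RatFunc F) (Set.range y) = ⊤ →
    ∀ σ : Perm (Fin n), ∃ τ : L ≃ₐ[RatFunc F] L, ∀ i, τ (y i) = y (σ i)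

end MP7fA
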